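import Pool.Agent.Lib.MP_0b8c1e_lc.Gap

set_option autoImplicit false

/-!
# Dense Graph Partition: refining a partition into parts of bounded size
-/

namespace Pool.Agent.Lib.MP_0b8c1e_lc

open Finset

variable {V : Type*} [DecidableEq V]

theorem darts_indicator (G : SimpleGraph V) {A S : Finset V} (hS : S ⊆ A) :
    (darts G S : ℝ) =
      ∑ u ∈ A, ∑ v ∈ A, if ({u, v} : Finset V) ⊆ S then (adjI G u v : ℝ) else 0 := by
  unfold darts
  push_cast
  have h : ∀ f : V → ℝ, ∑ u ∈ S, f u = ∑ u ∈ A, if u ∈ S then f u else 0 := by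
    intro f
    rw [sum_ite_mem, inter_eq_right.mpr hS]
  rw [h]
  refine sum_congr rfl fun u _ => ?_
  by_cases hu : u ∈ S
  · rw [if_pos hu, h]
    refine sum_congr rfl fun v _ => ?_
    have : ({u, v} : Finset V) ⊆ S ↔ v ∈ S := by
      rw [insert_subset_iff, singleton_subset_iff]
      exact ⟨fun h => h.2, fun h => ⟨hu, h⟩⟩
    simp only [this]
  · rw [if_neg hu]
    symm
    refine sum_eq_zero fun v _ => ?_
    rw [if_neg]
    intro h'
    exact hu (h' (by simp))

theorem sum_darts_powersetCard (G : SimpleGraph V) (A : Finset V) {k : ℕ} (hk : 2 ≤ k) :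
    ∑ S ∈ powersetCard k A, (darts G S : ℝ) =
      (darts G A : ℝ) * ((#A - 2).choose (k - 2) : ℝ) := by
  have h1 : ∑ S ∈ powersetCard k A, (darts G S : ℝ) =
      ∑ S ∈ powersetCard k A, ∑ u ∈ A, ∑ v ∈ A,
        if ({u, v} : Finset V) ⊆ S then (adjI G u v : ℝ) else 0 :=
    sum_congr rfl fun S hS => darts_indicator G (mem_powersetCard.mp hS).1
  rw [h1, sum_comm]
  unfold darts
  push_cast
  rw [sum_mul]
  refine sum_congr rfl fun u hu => ?_
  rw [sum_comm, sum_mul]
  refine sum_congr rfl fun v hv => ?_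
  rw [← sum_filter, sum_const, nsmul_eq_mul]
  by_cases huv : G.Adj u v
  · have hsub : ({u, v} : Finset V) ⊆ A := by
      rw [insert_subset_iff, singleton_subset_iff]; exact ⟨hu, hv⟩
    rw [card_filter_powersetCard_subset _ _ _ hsub (by rw [card_pair huv.ne]; exact hk),
      card_pair huv.ne]
    ring
  · rw [adjI_eq_zero huv]
    simp

theorem sum_darts_sdiff (G : SimpleGraph V) (A : Finset V) (k : ℕ) :
    ∑ S ∈ powersetCard k A, (darts G (A \ S) : ℝ) =
      (darts G A : ℝ) * ((#A - 2).choose k : ℝ) := by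
  have h1 : ∑ S ∈ powersetCard k A, (darts G (A \ S) : ℝ) =
      ∑ S ∈ powersetCard k A, ∑ u ∈ A, ∑ v ∈ A,
        if ({u, v} : Finset V) ⊆ A \ S then (adjI G u v : ℝ) else 0 :=
    sum_congr rfl fun S _ => darts_indicator G sdiff_subset
  rw [h1, sum_comm]
  unfold darts
  push_cast
  rw [sum_mul]
  refine sum_congr rfl fun u hu => ?_
  rw [sum_comm, sum_mul]
  refine sum_congr rfl fun v hv => ?_
  rw [← sum_filter, sum_const, nsmul_eq_mul]
  by_cases huv : G.Adj u v
  · have hsub : ({u, v} : Finset V) ⊆ A := by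
      rw [insert_subset_iff, singleton_subset_iff]; exact ⟨hu, hv⟩
    have e : (powersetCard k A).filter (fun S => ({u, v} : Finset V) ⊆ A \ S) =
        powersetCard k (A \ {u, v}) := by
      ext S
      rw [mem_filter, mem_powersetCard, mem_powersetCard]
      constructor
      · rintro ⟨⟨hSA, hk⟩, h⟩
        refine ⟨fun x hx => ?_, hk⟩
        rw [mem_sdiff]
        refine ⟨hSA hx, fun hx' => ?_⟩
        exact (mem_sdiff.mp (h hx')).2 hx
      · rintro ⟨hSA, hk⟩
        refine ⟨⟨hSA.trans sdiff_subset, hk⟩, fun x hx => ?_⟩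
        rw [mem_sdiff]
        refine ⟨hsub hx, fun hx' => ?_⟩
        exact (mem_sdiff.mp (hSA hx')).2 hx
    rw [e, card_powersetCard, card_sdiff_of_subset hsub, card_pair huv.ne]
    ring
  · rw [adjI_eq_zero huv]
    simp

theorem choose_id1 (n j : ℕ) :
    ((n + 2).choose (j + 2) : ℝ) * (j + 2) * (j + 1) = (n + 2) * (n + 1) * (n.choose j : ℝ) := by
  have h1 : (n + 2) * (n + 1).choose (j + 1) = (n + 2).choose (j + 2) * (j + 2) :=
    Nat.add_one_mul_choose_eq (n + 1) (j + 1)
  have h2 : (n + 1) * n.choose j = (n + 1).choose (j + 1) * (j + 1) :=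
    Nat.add_one_mul_choose_eq n j
  have h1' : ((n : ℝ) + 2) * ((n + 1).choose (j + 1) : ℝ) = ((n + 2).choose (j + 2) : ℝ) * (j + 2) := by
    exact_mod_cast h1
  have h2' : ((n : ℝ) + 1) * (n.choose j : ℝ) = ((n + 1).choose (j + 1) : ℝ) * (j + 1) := by
    exact_mod_cast h2
  calc ((n + 2).choose (j + 2) : ℝ) * (j + 2) * (j + 1)
      = ((n : ℝ) + 2) * ((n + 1).choose (j + 1) : ℝ) * (j + 1) := by rw [h1']
    _ = ((n : ℝ) + 2) * (((n + 1).choose (j + 1) : ℝ) * (j + 1)) := by ring
    _ = ((n : ℝ) + 2) * (((n : ℝ) + 1) * (n.choose j : ℝ)) := by rw [h2']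
    _ = _ := by ring

theorem choose_id2 (n k : ℕ) (hk : k ≤ n + 1) :
    ((n + 2).choose k : ℝ) * ((n : ℝ) + 2 - k) * ((n : ℝ) + 1 - k) =
      (n + 2) * (n + 1) * (n.choose k : ℝ) := by
  have h1 := Nat.choose_mul_succ_eq (n + 1) k
  have h2 := Nat.choose_mul_succ_eq n k
  have h1' : ((n + 1).choose k : ℝ) * ((n : ℝ) + 2) = ((n + 2).choose k : ℝ) * ((n : ℝ) + 2 - k) := by
    have : (((n + 1).choose k * (n + 1 + 1) : ℕ) : ℝ) =
        (((n + 1 + 1).choose k * (n + 1 + 1 - k) : ℕ) : ℝ) := by exact_mod_cast h1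
    rw [Nat.cast_mul, Nat.cast_mul, Nat.cast_sub (by omega)] at this
    push_cast at this
    have e : (n + 1 + 1).choose k = (n + 2).choose k := rfl
    rw [e] at this
    linarith
  have h2' : (n.choose k : ℝ) * ((n : ℝ) + 1) = ((n + 1).choose k : ℝ) * ((n : ℝ) + 1 - k) := by
    have : ((n.choose k * (n + 1) : ℕ) : ℝ) =
        (((n + 1).choose k * (n + 1 - k) : ℕ) : ℝ) := by exact_mod_cast h2
    rw [Nat.cast_mul, Nat.cast_mul, Nat.cast_sub (by omega)] at this
    push_cast at this
    linarith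
  calc ((n + 2).choose k : ℝ) * ((n : ℝ) + 2 - k) * ((n : ℝ) + 1 - k)
      = ((n + 1).choose k : ℝ) * ((n : ℝ) + 2) * ((n : ℝ) + 1 - k) := by rw [h1']
    _ = (((n + 1).choose k : ℝ) * ((n : ℝ) + 1 - k)) * ((n : ℝ) + 2) := by ring
    _ = ((n.choose k : ℝ) * ((n : ℝ) + 1)) * ((n : ℝ) + 2) := by rw [h2']
    _ = _ := by ring

/-- Some `k`-element subset of `A` can be split off without losing too much. -/
theorem exists_split (G : SimpleGraph V) (A : Finset V) {k : ℕ} (hk : 2 ≤ k) (hkA : k < #A) :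
    ∃ S ⊆ A, #S = k ∧ (1 - 1 / (k : ℝ)) * ((darts G A : ℝ) / (#A : ℝ)) ≤
      (darts G S : ℝ) / k + (1 - 1 / (k : ℝ)) * ((darts G (A \ S) : ℝ) / (#A - k : ℝ)) := by
  by_contra hcon
  push Not at hcon
  have hne : (powersetCard k A).Nonempty := powersetCard_nonempty.mpr hkA.le
  have hlt := sum_lt_sum_of_nonempty hne fun S hS =>
    hcon S (mem_powersetCard.mp hS).1 (mem_powersetCard.mp hS).2
  rw [sum_add_distrib, ← sum_div, ← mul_sum, ← sum_div, sum_darts_powersetCard G A hk,
    sum_darts_sdiff, sum_const, card_powersetCard, nsmul_eq_mul] at hlt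
  obtain ⟨j, rfl⟩ : ∃ j, k = j + 2 := ⟨k - 2, by omega⟩
  obtain ⟨n, hn⟩ : ∃ n, #A = n + 2 := ⟨#A - 2, by omega⟩
  rw [hn] at hlt hkA
  have e1 : n + 2 - 2 = n := by omega
  have e2 : j + 2 - 2 = j := by omega
  rw [e1, e2] at hlt
  have i1 := choose_id1 n j
  have i2 := choose_id2 n (j + 2) (by omega)
  set N : ℝ := ((n + 2).choose (j + 2) : ℝ) with hN
  have hn0 : (0 : ℝ) ≤ n := Nat.cast_nonneg n
  have hj0 : (0 : ℝ) ≤ j := Nat.cast_nonneg j
  have hjn : (j : ℝ) + 2 < n + 2 := by exact_mod_cast hkA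
  push_cast at hlt i2
  have c1 : (n.choose j : ℝ) = N * (j + 2) * (j + 1) / ((n + 2) * (n + 1)) := by
    rw [eq_div_iff (by positivity)]; linarith
  have c2 : (n.choose (j + 2) : ℝ) =
      N * ((n : ℝ) + 2 - (j + 2)) * ((n : ℝ) + 1 - (j + 2)) / ((n + 2) * (n + 1)) := by
    rw [eq_div_iff (by positivity)]; linarith
  rw [c1, c2] at hlt
  have hpos : (0 : ℝ) < n + 2 - (j + 2) := by linarith
  refine absurd hlt (not_lt.mpr (le_of_eq ?_))
  have h3 : (n : ℝ) + 2 - (j + 2) ≠ 0 := hpos.ne'
  have h4 : (n : ℝ) + 2 ≠ 0 := by positivity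
  have h5 : (n : ℝ) + 1 ≠ 0 := by positivity
  have h6 : (j : ℝ) + 2 ≠ 0 := by positivity
  field_simp
  ring

/-- Every vertex set can be partitioned into parts of at most `k` vertices keeping a fraction
`1 - 1 / k` of its density. -/
theorem exists_refinement (G : SimpleGraph V) {k : ℕ} (hk : 1 ≤ k) : ∀ (n : ℕ) (A : Finset V),
    #A = n → ∃ Q : Finpartition A, (∀ B ∈ Q.parts, #B ≤ k) ∧
      (1 - 1 / (k : ℝ)) * ((darts G A : ℝ) / (#A : ℝ)) ≤
        ∑ B ∈ Q.parts, (darts G B : ℝ) / (#B : ℝ) := by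
  intro n
  induction n using Nat.strong_induction_on with
  | _ n ih =>
    intro A hA
    have hk0 : (0 : ℝ) < k := by exact_mod_cast hk
    have hc1 : 1 - 1 / (k : ℝ) ≤ 1 := by
      have : 0 ≤ 1 / (k : ℝ) := by positivity
      linarith
    by_cases hsmall : #A ≤ k
    · by_cases hne : A = ∅
      · subst hne
        refine ⟨⊥, ?_, ?_⟩
        · intro B hB
          have : #B ≤ #(∅ : Finset V) := card_le_card (Finpartition.le _ hB)
          simp at this
          simp [this]
        · simp only [card_empty, Nat.cast_zero, div_zero, mul_zero]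
          exact sum_nonneg fun B _ => by positivity
      · refine ⟨Finpartition.indiscrete (by simpa using hne), ?_, ?_⟩
        · intro B hB
          rw [Finpartition.indiscrete_parts, mem_singleton] at hB
          rw [hB]; exact hsmall
        · rw [Finpartition.indiscrete_parts, sum_singleton]
          exact mul_le_of_le_one_left (by positivity) hc1
    · push Not at hsmall
      by_cases hk2 : 2 ≤ k
      · obtain ⟨S, hSA, hS, hineq⟩ := exists_split G A hk2 hsmall
        have hcard : #(A \ S) = #A - k := by rw [card_sdiff_of_subset hSA, hS]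
        obtain ⟨Q, hQ1, hQ2⟩ := ih #(A \ S) (by omega) (A \ S) rfl
        have hSne : S ≠ ⊥ := by
          rw [bot_eq_empty, ← nonempty_iff_ne_empty, ← card_pos, hS]; omega
        refine ⟨Q.extend hSne sdiff_disjoint (sdiff_union_of_subset hSA), ?_, ?_⟩
        · intro B hB
          rw [Finpartition.extend_parts, mem_insert] at hB
          rcases hB with rfl | hB
          · exact hS.le
          · exact hQ1 B hB
        · rw [Finpartition.extend_parts, sum_insert]
          · refine hineq.trans ?_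
            have e : ((#A : ℝ) - k) = (#(A \ S) : ℝ) := by
              rw [hcard, Nat.cast_sub hsmall.le]
            rw [e, hS]
            linarith
          · intro h
            have h1 : S ⊆ A \ S := Q.le h
            apply hSne
            rw [bot_eq_empty, eq_empty_iff_forall_notMem]
            intro x hx
            exact (mem_sdiff.mp (h1 hx)).2 hx
      · have hk1 : k = 1 := by omega
        subst hk1
        refine ⟨⊥, ?_, ?_⟩
        · intro B hB
          rw [Finpartition.mem_bot_iff] at hB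
          obtain ⟨a, -, rfl⟩ := hB
          simp
        · norm_num
          exact sum_nonneg fun B _ => by positivity

/-- Every partition has a refinement into parts of at most `k` vertices keeping a fraction
`1 - 1 / k` of the density. -/
theorem exists_bounded_parts [Fintype V] (G : SimpleGraph V) {k : ℕ} (hk : 1 ≤ k)
    (P : Finpartition (univ : Finset V)) :
    ∃ Q : Finpartition (univ : Finset V), Q ≤ P ∧ (∀ B ∈ Q.parts, #B ≤ k) ∧
      (1 - 1 / (k : ℝ)) * density G P ≤ density G Q := by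
  choose R hR1 hR2 using fun A : Finset V => exists_refinement G hk #A A rfl
  refine ⟨P.bind fun A _ => R A, ?_, ?_, ?_⟩
  · intro B hB
    rw [Finpartition.mem_bind] at hB
    obtain ⟨A, hA, hB⟩ := hB
    exact ⟨A, hA, (R A).le hB⟩
  · intro B hB
    rw [Finpartition.mem_bind] at hB
    obtain ⟨A, hA, hB⟩ := hB
    exact hR1 A B hB
  · have hE : ∀ A : Finset V, (edgesIn G A : ℝ) = (darts G A : ℝ) / 2 := by
      intro A
      rw [← two_mul_edgesIn]
      push_cast
      ring
    unfold density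
    simp_rw [hE]
    rw [Finpartition.bind_parts, sum_biUnion, mul_sum, ← sum_attach]
    · refine sum_le_sum fun A _ => ?_
      have h := hR2 A.1
      calc (1 - 1 / (k : ℝ)) * ((darts G A.1 : ℝ) / 2 / (#A.1 : ℝ))
          = ((1 - 1 / (k : ℝ)) * ((darts G A.1 : ℝ) / (#A.1 : ℝ))) / 2 := by ring
        _ ≤ (∑ B ∈ (R A.1).parts, (darts G B : ℝ) / (#B : ℝ)) / 2 := by linarith
        _ = ∑ B ∈ (R A.1).parts, (darts G B : ℝ) / 2 / (#B : ℝ) := by
            rw [sum_div]
            exact sum_congr rfl fun B _ => by ring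
    · intro A hA B hB hAB
      rw [Function.onFun, Finset.disjoint_left]
      intro C hCA hCB
      have h1 : C ⊆ A.1 := (R A.1).le hCA
      have h2 : C ⊆ B.1 := (R B.1).le hCB
      have h3 : Disjoint A.1 B.1 := P.disjoint A.2 B.2 (fun h => hAB (Subtype.ext h))
      obtain ⟨x, hx⟩ := (R A.1).nonempty_of_mem_parts hCA
      exact Finset.disjoint_left.mp h3 (h1 hx) (h2 hx)

/-- In a complete graph, partitions into parts of at most `k` vertices are far from optimal. -/
theorem density_complete_le [Fintype V] {k : ℕ} (hk : 1 ≤ k)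
    (Q : Finpartition (univ : Finset V)) (hQ : ∀ B ∈ Q.parts, #B ≤ k) :
    density (⊤ : SimpleGraph V) Q ≤ (1 - 1 / (k : ℝ)) * ((Fintype.card V : ℝ) / 2) := by
  have hk0 : (0 : ℝ) < k := by exact_mod_cast hk
  have hn : (Fintype.card V : ℝ) = ∑ A ∈ Q.parts, (#A : ℝ) := by
    have := Q.sum_card_parts
    rw [card_univ] at this
    rw [← this]
    push_cast
    rfl
  rw [hn, sum_div, mul_sum]
  unfold density
  refine sum_le_sum fun B hB => ?_
  have hpos : 0 < #B := card_pos.mpr (Q.nonempty_of_mem_parts hB)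
  obtain ⟨r, hr⟩ : ∃ r, #B = r + 1 := ⟨#B - 1, by omega⟩
  have hcl : (⊤ : SimpleGraph V).IsNClique (r + 1) B := by
    rw [SimpleGraph.isNClique_iff]
    exact ⟨fun _ _ _ _ h => by simpa using h, hr⟩
  have h1 := edgesIn_clique (⊤ : SimpleGraph V) hcl
  have h2 : (2 : ℝ) * edgesIn (⊤ : SimpleGraph V) B = (r + 1) * r := by exact_mod_cast h1
  have h3 : (r : ℝ) + 1 ≤ k := by
    have := hQ B hB
    rw [hr] at this
    exact_mod_cast this
  rw [hr]
  push_cast
  have h4 : (edgesIn (⊤ : SimpleGraph V) B : ℝ) / (r + 1) = r / 2 := by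
    have : (0 : ℝ) < r + 1 := by positivity
    field_simp
    linarith
  rw [h4]
  have h5 : (1 - 1 / (k : ℝ)) * ((r + 1) / 2) = (r + 1) / 2 - (r + 1) / k / 2 := by
    field_simp
  rw [h5]
  have h6 : ((r : ℝ) + 1) / k ≤ 1 := by rw [div_le_one hk0]; exact h3
  linarith

theorem density_complete_top [Fintype V] [Nonempty V] :
    ((Fintype.card V : ℝ) - 1) / 2 ≤ OPT (⊤ : SimpleGraph V) := by
  have hne : (univ : Finset V) ≠ ⊥ := by
    rw [bot_eq_empty]; exact univ_nonempty.ne_empty
  refine le_trans ?_ (density_le_OPT _ (Finpartition.indiscrete hne))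
  unfold density
  rw [Finpartition.indiscrete_parts, sum_singleton]
  obtain ⟨r, hr⟩ : ∃ r, #(univ : Finset V) = r + 1 :=
    ⟨#(univ : Finset V) - 1, by have := card_pos.mpr (univ_nonempty (α := V)); omega⟩
  have hcl : (⊤ : SimpleGraph V).IsNClique (r + 1) univ := by
    rw [SimpleGraph.isNClique_iff]
    exact ⟨fun _ _ _ _ h => by simpa using h, hr⟩
  have h1 := edgesIn_clique (⊤ : SimpleGraph V) hcl
  have h2 : (2 : ℝ) * edgesIn (⊤ : SimpleGraph V) univ = (r + 1) * r := by exact_mod_cast h1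
  have h3 : Fintype.card V = r + 1 := by rw [← card_univ]; exact hr
  rw [h3, hr]
  push_cast
  have h4 : (0 : ℝ) < r + 1 := by positivity
  rw [le_div_iff₀ h4]
  nlinarith

end Pool.Agent.Lib.MP_0b8c1e_lc
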