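import Mathlib

set_option autoImplicit false

/-!
# Dense Graph Partition: definitions

A partition of the vertex set of a finite graph `G` is a `Finpartition (univ : Finset V)`; its
parts are nonempty, pairwise disjoint and cover `V`.
-/

namespace Pool.Agent.Lib.MP_0b8c1e_lc

open Finset

variable {V : Type*}

/-- The number of edges of `G` with both end points in `A`. -/
noncomputable def edgesIn (G : SimpleGraph V) (A : Finset V) : ℕ :=
  {e : Sym2 V | e ∈ G.edgeSet ∧ ∀ v ∈ e, v ∈ A}.ncard

/-- The density `d(P) = ∑_i |E(P_i)| / |P_i|` of a partition of the vertex set. -/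
noncomputable def density [Fintype V] [DecidableEq V] (G : SimpleGraph V)
    (P : Finpartition (univ : Finset V)) : ℝ :=
  ∑ A ∈ P.parts, (edgesIn G A : ℝ) / (#A : ℝ)

/-- The maximum density of a partition of the vertex set. -/
noncomputable def OPT [Fintype V] [DecidableEq V] (G : SimpleGraph V) : ℝ :=
  ⨆ P : Finpartition (univ : Finset V), density G P

theorem density_le_OPT [Fintype V] [DecidableEq V] (G : SimpleGraph V)
    (P : Finpartition (univ : Finset V)) : density G P ≤ OPT G :=
  le_ciSup (f := fun P : Finpartition (univ : Finset V) => density G P)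
    (Set.finite_range _).bddAbove P

/-- The supremum in the definition of `OPT` is a maximum. -/
theorem exists_density_eq_OPT [Fintype V] [DecidableEq V] (G : SimpleGraph V) :
    ∃ P : Finpartition (univ : Finset V), density G P = OPT G := by
  obtain ⟨P, hP⟩ := exists_eq_ciSup_of_finite
    (f := fun P : Finpartition (univ : Finset V) => density G P)
  exact ⟨P, hP⟩

/-- A family of pairwise vertex-disjoint cliques with `r` vertices of `G`. -/
def IsCliquePacking (G : SimpleGraph V) (r : ℕ) (T : Finset (Finset V)) : Prop :=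
  (∀ t ∈ T, G.IsNClique r t) ∧ (T : Set (Finset V)).PairwiseDisjoint id

/-- The maximum number of pairwise vertex-disjoint cliques with `r` vertices of `G` (for
`r ≥ 1`). -/
noncomputable def packingNumber (G : SimpleGraph V) (r : ℕ) : ℕ :=
  sSup {k : ℕ | ∃ T : Finset (Finset V), IsCliquePacking G r T ∧ #T = k}

/-- A packing by cliques with `r` vertices of a graph with `n` vertices has at most `n / r`
members. -/
theorem IsCliquePacking.mul_card_le [Fintype V] [DecidableEq V] {G : SimpleGraph V} {r : ℕ}
    {T : Finset (Finset V)} (hT : IsCliquePacking G r T) : r * #T ≤ Fintype.card V := by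
  have h1 : #(T.biUnion id) = ∑ t ∈ T, #(id t) := card_biUnion hT.2
  have h2 : ∑ t ∈ T, #(id t) = ∑ t ∈ T, r := sum_congr rfl fun t ht => (hT.1 t ht).card_eq
  rw [h2, sum_const, smul_eq_mul] at h1
  have h3 : #(T.biUnion id) ≤ Fintype.card V := card_le_univ _
  rw [mul_comm]
  omega

theorem packingNumber_bdd [Fintype V] (G : SimpleGraph V) {r : ℕ} (hr : 1 ≤ r) :
    BddAbove {k : ℕ | ∃ T : Finset (Finset V), IsCliquePacking G r T ∧ #T = k} := by
  classical
  refine ⟨Fintype.card V, ?_⟩
  rintro k ⟨T, hT, rfl⟩
  have := hT.mul_card_le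
  nlinarith

theorem IsCliquePacking.card_le [Fintype V] {G : SimpleGraph V} {r : ℕ} (hr : 1 ≤ r)
    {T : Finset (Finset V)} (hT : IsCliquePacking G r T) : #T ≤ packingNumber G r :=
  le_csSup (packingNumber_bdd G hr) ⟨T, hT, rfl⟩

theorem exists_packing_card_eq [Fintype V] (G : SimpleGraph V) {r : ℕ} (hr : 1 ≤ r) :
    ∃ T : Finset (Finset V), IsCliquePacking G r T ∧ #T = packingNumber G r := by
  have : packingNumber G r ∈
      {k : ℕ | ∃ T : Finset (Finset V), IsCliquePacking G r T ∧ #T = k} :=
    Nat.sSup_mem ⟨0, ∅, ⟨by simp, by simp⟩, by simp⟩ (packingNumber_bdd G hr)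
  exact this

end Pool.Agent.Lib.MP_0b8c1e_lc
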