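import Pool.Agent.Lib.MP_0b8c1e_lc.Defs

set_option autoImplicit false

/-!
# Dense Graph Partition: the deficiency in graphs without a clique on `r + 1` vertices
-/

namespace Pool.Agent.Lib.MP_0b8c1e_lc

open Finset

variable {V : Type*}

/-- Indicator of adjacency. -/
noncomputable def adjI (G : SimpleGraph V) (u v : V) : ℕ :=
  open Classical in if G.Adj u v then 1 else 0

/-- Number of ordered adjacent pairs in `A`. -/
noncomputable def darts (G : SimpleGraph V) (A : Finset V) : ℕ :=
  ∑ u ∈ A, ∑ v ∈ A, adjI G u v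

theorem adjI_comm (G : SimpleGraph V) (u v : V) : adjI G u v = adjI G v u := by
  unfold adjI
  by_cases h : G.Adj u v
  · rw [if_pos h, if_pos h.symm]
  · rw [if_neg h, if_neg fun h' => h h'.symm]

theorem adjI_le_one (G : SimpleGraph V) (u v : V) : adjI G u v ≤ 1 := by
  unfold adjI; split_ifs <;> simp

theorem adjI_eq_zero {G : SimpleGraph V} {u v : V} (h : ¬ G.Adj u v) : adjI G u v = 0 := by
  simp [adjI, h]

theorem adjI_eq_one {G : SimpleGraph V} {u v : V} (h : G.Adj u v) : adjI G u v = 1 := by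
  simp [adjI, h]

theorem two_mul_edgesIn [DecidableEq V] (G : SimpleGraph V) (A : Finset V) :
    2 * edgesIn G A = darts G A := by
  classical
  have h1 : darts G A = #((A ×ˢ A).filter fun x => G.Adj x.1 x.2) := by
    rw [card_filter, sum_product]
    rfl
  have h2 : {e : Sym2 V | e ∈ G.edgeSet ∧ ∀ v ∈ e, v ∈ A} =
      (((A ×ˢ A).filter fun x => G.Adj x.1 x.2).image fun x => s(x.1, x.2) : Finset (Sym2 V)) := by
    ext e
    induction e with
    | _ u v =>
      simp only [Set.mem_ofPred_eq, SimpleGraph.mem_edgeSet, Sym2.mem_iff, forall_eq_or_imp,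
        forall_eq, coe_image, coe_filter, mem_product, Set.mem_image, Prod.exists]
      constructor
      · rintro ⟨h, hu, hv⟩
        exact ⟨u, v, ⟨⟨hu, hv⟩, h⟩, rfl⟩
      · rintro ⟨a, b, ⟨⟨ha, hb⟩, hab⟩, h⟩
        rw [Sym2.eq_iff] at h
        rcases h with ⟨rfl, rfl⟩ | ⟨rfl, rfl⟩
        · exact ⟨hab, ha, hb⟩
        · exact ⟨hab.symm, hb, ha⟩
  rw [h1, edgesIn, h2, Set.ncard_coe_finset]
  set S := (A ×ˢ A).filter fun x => G.Adj x.1 x.2 with hS
  rw [card_eq_sum_card_image (fun x : V × V => s(x.1, x.2)) S, mul_comm, ← smul_eq_mul,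
    ← sum_const]
  refine sum_congr rfl fun e he => ?_
  rw [mem_image] at he
  obtain ⟨⟨u, v⟩, hx, rfl⟩ := he
  rw [hS, mem_filter, mem_product] at hx
  obtain ⟨⟨hu, hv⟩, huv⟩ := hx
  have h3 : (S.filter fun x : V × V => s(x.1, x.2) = s(u, v)) = {(u, v), (v, u)} := by
    ext ⟨a, b⟩
    simp only [hS, mem_filter, mem_product, mem_insert, mem_singleton, Sym2.eq_iff,
      Prod.mk.injEq]
    constructor
    · rintro ⟨-, h⟩; exact h
    · rintro (⟨rfl, rfl⟩ | ⟨rfl, rfl⟩)
      · exact ⟨⟨⟨hu, hv⟩, huv⟩, Or.inl ⟨rfl, rfl⟩⟩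
      · exact ⟨⟨⟨hv, hu⟩, huv.symm⟩, Or.inr ⟨rfl, rfl⟩⟩
  have h4 : (u, v) ≠ (v, u) := by
    intro h
    rw [Prod.mk.injEq] at h
    exact huv.ne h.1
  rw [h3, card_pair h4]

/-- Splitting the ordered adjacent pairs of `A` along a subset `t`. -/
theorem darts_split [DecidableEq V] (G : SimpleGraph V) {A t : Finset V} (ht : t ⊆ A) :
    darts G A = darts G (A \ t) + 2 * (∑ w ∈ A \ t, ∑ u ∈ t, adjI G w u) + darts G t := by
  unfold darts
  rw [← sum_sdiff ht]
  have e1 : ∀ u, ∑ v ∈ A, adjI G u v = ∑ v ∈ A \ t, adjI G u v + ∑ v ∈ t, adjI G u v :=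
    fun u => (sum_sdiff ht).symm
  simp_rw [e1, sum_add_distrib]
  have e2 : ∑ u ∈ t, ∑ v ∈ A \ t, adjI G u v = ∑ w ∈ A \ t, ∑ u ∈ t, adjI G w u := by
    rw [sum_comm]
    exact sum_congr rfl fun w _ => sum_congr rfl fun u _ => adjI_comm G u w
  rw [e2]
  ring

/-- If every vertex outside `t` has a non-neighbour in `t`, removing `t` costs few edges. -/
theorem darts_le [DecidableEq V] (G : SimpleGraph V) {A t : Finset V} {s : ℕ} (ht : t ⊆ A)
    (hs : #t = s + 1) (h : ∀ w ∈ A \ t, ∃ u ∈ t, ¬ G.Adj w u) :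
    darts G A ≤ darts G (A \ t) + 2 * s * #(A \ t) + (s + 1) * s := by
  have key : ∀ w, (∃ u ∈ t, ¬ G.Adj w u) → ∑ u ∈ t, adjI G w u ≤ s := by
    rintro w ⟨u, hu, hwu⟩
    rw [← add_sum_erase t _ hu, adjI_eq_zero hwu, zero_add]
    calc ∑ x ∈ t.erase u, adjI G w x ≤ ∑ x ∈ t.erase u, 1 :=
          sum_le_sum fun x _ => adjI_le_one G w x
      _ = #(t.erase u) := by simp
      _ = s := by rw [card_erase_of_mem hu, hs]; simp
  have h1 : ∑ w ∈ A \ t, ∑ u ∈ t, adjI G w u ≤ ∑ w ∈ A \ t, s :=
    sum_le_sum fun w hw => key w (h w hw)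
  have h2 : darts G t ≤ ∑ w ∈ t, s :=
    sum_le_sum fun w hw => key w ⟨w, hw, G.loopless.irrefl w⟩
  rw [sum_const, smul_eq_mul] at h1 h2
  rw [hs] at h2
  rw [darts_split G ht]
  have : 2 * ∑ w ∈ A \ t, ∑ u ∈ t, adjI G w u ≤ 2 * s * #(A \ t) := by
    calc 2 * ∑ w ∈ A \ t, ∑ u ∈ t, adjI G w u ≤ 2 * (#(A \ t) * s) := Nat.mul_le_mul_left 2 h1
      _ = 2 * s * #(A \ t) := by ring
  omega

/-- A maximal clique argument: if `A` holds the clique `t` and no clique with one more vertex. -/
theorem darts_le_clique [DecidableEq V] (G : SimpleGraph V) {A t : Finset V} {s : ℕ} (ht : t ⊆ A)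
    (hs : G.IsNClique (s + 1) t) (h : ∀ t ⊆ A, ¬ G.IsNClique (s + 2) t) :
    darts G A ≤ darts G (A \ t) + 2 * s * #(A \ t) + (s + 1) * s := by
  refine darts_le G ht hs.card_eq ?_
  intro w hw
  by_contra hcon
  push Not at hcon
  refine h (insert w t) ?_ (hs.insert hcon)
  intro x hx
  rw [mem_insert] at hx
  rcases hx with rfl | hx
  · exact (mem_sdiff.mp hw).1
  · exact ht hx

theorem card_sdiff_clique [DecidableEq V] {A t : Finset V} {s n : ℕ} (ht : t ⊆ A)
    (hs : #t = s) (hA : #A = n) : #(A \ t) + s = n := by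
  have := card_le_card ht
  rw [card_sdiff_of_subset ht, hs, hA]
  omega

/-- Turán's bound: a vertex set without a clique on `s + 2` vertices spans at most
`s / (s + 1) * |A| ^ 2` ordered adjacent pairs. -/
theorem turan_bound [DecidableEq V] (G : SimpleGraph V) : ∀ (s n : ℕ) (A : Finset V), #A = n →
    (∀ t ⊆ A, ¬ G.IsNClique (s + 2) t) → (s + 1) * darts G A ≤ s * n ^ 2 := by
  intro s
  induction s with
  | zero =>
    intro n A hA h
    have : darts G A = 0 := by
      unfold darts
      refine sum_eq_zero fun u hu => sum_eq_zero fun v hv => adjI_eq_zero fun huv => ?_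
      refine h {u, v} ?_ ?_
      · intro x hx
        rw [mem_insert, mem_singleton] at hx
        rcases hx with rfl | rfl <;> assumption
      · have hp : G.IsNClique 1 ({v} : Finset V) := by
          rw [SimpleGraph.isNClique_one]; exact ⟨v, rfl⟩
        exact hp.insert (by intro b hb; rw [mem_singleton] at hb; rw [hb]; exact huv)
    rw [this]
    simp
  | succ s ihs =>
    intro n
    induction n using Nat.strong_induction_on with
    | _ n ih =>
      intro A hA h
      by_cases ht : ∃ t ⊆ A, G.IsNClique (s + 2) t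
      · obtain ⟨t, htA, ht⟩ := ht
        have hc := card_sdiff_clique htA ht.card_eq hA
        obtain ⟨k, rfl⟩ : ∃ k, n = k + (s + 2) := ⟨n - (s + 2), by omega⟩
        have hk : #(A \ t) = k := by omega
        have h1 := darts_le_clique G htA ht h
        have h2 := ih k (by omega) (A \ t) hk fun t' ht' => h t' (ht'.trans sdiff_subset)
        rw [hk] at h1
        calc (s + 1 + 1) * darts G A
            ≤ (s + 1 + 1) * (darts G (A \ t) + 2 * (s + 1) * k + (s + 1 + 1) * (s + 1)) :=
              Nat.mul_le_mul_left _ h1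
          _ = (s + 1 + 1) * darts G (A \ t) + (s + 1 + 1) * (2 * (s + 1) * k +
                (s + 1 + 1) * (s + 1)) := by ring
          _ ≤ (s + 1) * k ^ 2 + (s + 1 + 1) * (2 * (s + 1) * k + (s + 1 + 1) * (s + 1)) :=
              Nat.add_le_add_right h2 _
          _ = (s + 1) * (k + (s + 2)) ^ 2 := by ring
      · push Not at ht
        have h1 := ihs n A hA ht
        have h2 : (s + 1) * ((s + 1 + 1) * darts G A) ≤ (s + 1) * ((s + 1) * n ^ 2) := by
          calc (s + 1) * ((s + 1 + 1) * darts G A) = (s + 1 + 1) * ((s + 1) * darts G A) := by ring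
            _ ≤ (s + 1 + 1) * (s * n ^ 2) := Nat.mul_le_mul_left _ h1
            _ ≤ (s + 1) * ((s + 1) * n ^ 2) := by nlinarith [sq_nonneg n]
        exact Nat.le_of_mul_le_mul_left h2 (by omega)

/-- Every vertex set `A` of a graph without a clique on `s + 3` vertices carries a packing by
cliques on `s + 2` vertices such that, with `R` uncovered vertices, the number of ordered adjacent
pairs is at most `(s + 1) / (s + 2) * |A| ^ 2 - R ^ 2 / ((s + 1) * (s + 2))`. -/
theorem exists_packing_in [DecidableEq V] (G : SimpleGraph V) (s : ℕ)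
    (hG : G.CliqueFree (s + 3)) :
    ∀ (n : ℕ) (A : Finset V), #A = n →
    ∃ (T : Finset (Finset V)) (R : ℕ), IsCliquePacking G (s + 2) T ∧ (∀ t ∈ T, t ⊆ A) ∧
      (s + 2) * #T + R = n ∧ (s + 1) * (s + 2) * darts G A + R ^ 2 ≤ (s + 1) ^ 2 * n ^ 2 := by
  intro n
  induction n using Nat.strong_induction_on with
  | _ n ih =>
    intro A hA
    by_cases htri : ∃ t ⊆ A, G.IsNClique (s + 2) t
    · obtain ⟨t, htA, ht⟩ := htri
      have hc := card_sdiff_clique htA ht.card_eq hA
      obtain ⟨k, rfl⟩ : ∃ k, n = k + (s + 2) := ⟨n - (s + 2), by omega⟩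
      have hk : #(A \ t) = k := by omega
      obtain ⟨T, R, hT, hTA, hR, hD⟩ := ih k (by omega) (A \ t) hk
      have h1 := darts_le_clique G htA ht fun t' _ h' => hG t' h'
      rw [hk] at h1
      have hnot : t ∉ T := by
        intro h
        have h3 := hTA t h
        have h4 : t = ∅ := by
          rw [eq_empty_iff_forall_notMem]
          intro x hx
          exact (mem_sdiff.mp (h3 hx)).2 hx
        have h5 := ht.card_eq
        rw [h4] at h5
        simp at h5
      refine ⟨insert t T, R, ⟨?_, ?_⟩, ?_, ?_, ?_⟩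
      · intro s hs
        rw [mem_insert] at hs
        rcases hs with rfl | hs
        · exact ht
        · exact hT.1 s hs
      · rw [coe_insert]
        refine hT.2.insert fun s hs _ => ?_
        rw [id, id]
        exact disjoint_sdiff.mono_right (hTA s hs)
      · intro s hs
        rw [mem_insert] at hs
        rcases hs with rfl | hs
        · exact htA
        · exact (hTA s hs).trans sdiff_subset
      · rw [card_insert_of_notMem hnot, mul_add]
        omega
      · calc (s + 1) * (s + 2) * darts G A + R ^ 2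
            ≤ (s + 1) * (s + 2) * (darts G (A \ t) + 2 * (s + 1) * k + (s + 1 + 1) * (s + 1)) +
                R ^ 2 := Nat.add_le_add_right (Nat.mul_le_mul_left _ h1) _
          _ = ((s + 1) * (s + 2) * darts G (A \ t) + R ^ 2) +
                (s + 1) * (s + 2) * (2 * (s + 1) * k + (s + 1 + 1) * (s + 1)) := by ring
          _ ≤ (s + 1) ^ 2 * k ^ 2 +
                (s + 1) * (s + 2) * (2 * (s + 1) * k + (s + 1 + 1) * (s + 1)) :=
              Nat.add_le_add_right hD _
          _ = (s + 1) ^ 2 * (k + (s + 2)) ^ 2 := by ring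
    · push Not at htri
      refine ⟨∅, n, ⟨by simp, by simp⟩, by simp, by simp, ?_⟩
      have h1 := turan_bound G s n A hA htri
      calc (s + 1) * (s + 2) * darts G A + n ^ 2
          = (s + 2) * ((s + 1) * darts G A) + n ^ 2 := by ring
        _ ≤ (s + 2) * (s * n ^ 2) + n ^ 2 := Nat.add_le_add_right (Nat.mul_le_mul_left _ h1) _
        _ = (s + 1) ^ 2 * n ^ 2 := by ring

/-- Vertices of degree at most `Δ` give at most `Δ |A|` ordered adjacent pairs. -/
theorem darts_le_degree [Fintype V] (G : SimpleGraph V) {Δ : ℕ}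
    (hΔ : ∀ v, (G.neighborSet v).ncard ≤ Δ) (A : Finset V) : darts G A ≤ #A * Δ := by
  classical
  unfold darts
  rw [← smul_eq_mul, ← sum_const]
  refine sum_le_sum fun u _ => ?_
  have h1 : ∑ v ∈ A, adjI G u v = #(A.filter fun v => G.Adj u v) := by
    rw [card_filter]
    rfl
  rw [h1]
  refine le_trans ?_ (hΔ u)
  rw [← Set.ncard_coe_finset]
  refine Set.ncard_le_ncard ?_ (Set.toFinite _)
  intro v hv
  simp only [coe_filter, Set.mem_ofPred_eq] at hv
  exact hv.2

/-- The deficiency of one part; here `a = s + 1` and `b = s + 2`. -/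
theorem part_deficiency {p m Δ R a : ℝ} (hp : 1 ≤ p) (hΔ : 1 ≤ Δ) (hR : 0 ≤ R)
    (hRp : R ≤ p) (ha : 1 ≤ a) (hpΔ : p ≤ 2 * Δ ∨ 2 * Δ + 1 ≤ p) (hR1 : R = 0 ∨ 1 ≤ R)
    (h1 : 2 * (a * (a + 1)) * m + R ^ 2 ≤ a ^ 2 * p ^ 2)
    (h2 : 2 * m ≤ p * Δ) :
    R / (4 * (a * (a + 1)) * Δ) ≤ a / (2 * (a + 1)) * p - m / p := by
  have hp0 : 0 < p := by linarith
  have hΔ0 : 0 < Δ := by linarith
  have ha0 : 0 < a := by linarith
  have hab : 2 ≤ a * (a + 1) := by nlinarith
  -- the first bound for the deficiency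
  have b1 : R ^ 2 / (2 * (a * (a + 1)) * p) ≤ a / (2 * (a + 1)) * p - m / p := by
    rw [div_le_iff₀ (by positivity)]
    have e : (a / (2 * (a + 1)) * p - m / p) * (2 * (a * (a + 1)) * p) =
        a ^ 2 * p ^ 2 - 2 * (a * (a + 1)) * m := by
      field_simp
    rw [e]
    linarith
  -- the second bound for the deficiency
  have b2 : p / 4 - Δ / 2 ≤ a / (2 * (a + 1)) * p - m / p := by
    have e1 : m / p ≤ Δ / 2 := by
      rw [div_le_iff₀ hp0]; linarith
    have e2 : 1 / 4 ≤ a / (2 * (a + 1)) := by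
      rw [div_le_div_iff₀ (by norm_num) (by positivity)]
      linarith
    have e3 : 1 / 4 * p ≤ a / (2 * (a + 1)) * p := mul_le_mul_of_nonneg_right e2 hp0.le
    linarith
  by_cases hc : R = 0 ∨ p ≤ 2 * Δ * R
  · refine le_trans ?_ b1
    rcases hc with rfl | hc
    · simp
    · rw [div_le_div_iff₀ (by positivity) (by positivity)]
      have : R * (2 * (a * (a + 1)) * p) ≤ R * (2 * (a * (a + 1)) * (2 * Δ * R)) := by gcongr
      calc R * (2 * (a * (a + 1)) * p) ≤ R * (2 * (a * (a + 1)) * (2 * Δ * R)) := this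
        _ = R ^ 2 * (4 * (a * (a + 1)) * Δ) := by ring
  · push Not at hc
    obtain ⟨hR0, hc⟩ := hc
    have hR1' : 1 ≤ R := by
      rcases hR1 with h | h
      · exact absurd h hR0
      · exact h
    have hp2 : 2 * Δ < p := by nlinarith
    have hp3 : 2 * Δ + 1 ≤ p := by
      rcases hpΔ with h | h
      · linarith
      · exact h
    refine le_trans ?_ b2
    rw [div_le_iff₀ (by positivity)]
    -- reduce to a = 1
    have e0 : 0 ≤ p / 4 - Δ / 2 := by linarith
    have e1 : (p / 4 - Δ / 2) * (4 * 2 * Δ) ≤ (p / 4 - Δ / 2) * (4 * (a * (a + 1)) * Δ) := by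
      gcongr
    refine le_trans ?_ e1
    have e2 : R * (2 * Δ) ≤ p := by linarith
    have e3 : p ≤ (2 * p - 4 * Δ) * Δ * (2 * Δ) := by
      rcases le_total p (4 * Δ) with h | h
      · have : 2 ≤ 2 * p - 4 * Δ := by linarith
        have h5 : 2 * (Δ * (2 * Δ)) ≤ (2 * p - 4 * Δ) * (Δ * (2 * Δ)) := by gcongr
        nlinarith
      · have : p ≤ 2 * p - 4 * Δ := by linarith
        have h5 : p * (Δ * (2 * Δ)) ≤ (2 * p - 4 * Δ) * (Δ * (2 * Δ)) := by gcongr
        have h6 : p * 1 ≤ p * (Δ * (2 * Δ)) := by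
          gcongr
          nlinarith
        nlinarith
    have e4 : R * (2 * Δ) ≤ ((2 * p - 4 * Δ) * Δ) * (2 * Δ) := by linarith
    have e5 : R ≤ (2 * p - 4 * Δ) * Δ := le_of_mul_le_mul_right e4 (by positivity)
    linarith

/-- Lower bound for the deficiency of any partition. -/
theorem deficiency_lower [Fintype V] [DecidableEq V] (G : SimpleGraph V) (s : ℕ)
    (hG : G.CliqueFree (s + 3))
    {Δ : ℕ} (hΔ1 : 1 ≤ Δ) (hΔ : ∀ v, (G.neighborSet v).ncard ≤ Δ)
    (P : Finpartition (univ : Finset V)) :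
    ((Fintype.card V : ℝ) - (s + 2) * packingNumber G (s + 2)) /
      (4 * (((s : ℝ) + 1) * ((s + 1) + 1)) * Δ) ≤
      ((s : ℝ) + 1) / (2 * ((s + 1) + 1)) * (Fintype.card V : ℝ) - density G P := by
  choose T R hT hTA hcard hD using fun A : Finset V => exists_packing_in G s hG (#A) A rfl
  have hn : (Fintype.card V : ℝ) = ∑ A ∈ P.parts, (#A : ℝ) := by
    have := P.sum_card_parts
    rw [card_univ] at this
    rw [← this]
    push_cast
    rfl
  -- the union of the packings
  have hU : IsCliquePacking G (s + 2) (P.parts.biUnion T) := by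
    refine ⟨?_, ?_⟩
    · intro t ht
      rw [mem_biUnion] at ht
      obtain ⟨A, -, htA⟩ := ht
      exact (hT A).1 t htA
    · intro s hs t ht hst
      rw [mem_coe, mem_biUnion] at hs ht
      obtain ⟨A, hA, hsA⟩ := hs
      obtain ⟨B, hB, htB⟩ := ht
      by_cases hAB : A = B
      · subst hAB
        exact (hT A).2 hsA htB hst
      · have hdis : Disjoint A B := P.disjoint hA hB hAB
        exact hdis.mono (hTA A s hsA) (hTA B t htB)
  have hUcard : #(P.parts.biUnion T) = ∑ A ∈ P.parts, #(T A) := by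
    refine card_biUnion ?_
    intro A hA B hB hAB
    rw [Function.onFun, Finset.disjoint_left]
    intro t htA htB
    have hdis : Disjoint A B := P.disjoint hA hB hAB
    have h1 := hTA A t htA
    have h2 := hTA B t htB
    have h3 : #t = s + 2 := ((hT A).1 t htA).card_eq
    have h4 : t.Nonempty := by
      rw [← card_pos, h3]; omega
    obtain ⟨x, hx⟩ := h4
    exact Finset.disjoint_left.mp hdis (h1 hx) (h2 hx)
  have hτ : (∑ A ∈ P.parts, (#(T A) : ℝ)) ≤ packingNumber G (s + 2) := by
    have := hU.card_le (by omega)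
    rw [hUcard] at this
    exact_mod_cast this
  have hsum : ∑ A ∈ P.parts, ((R A : ℝ) / (4 * (((s : ℝ) + 1) * ((s + 1) + 1)) * Δ)) ≤
      ∑ A ∈ P.parts, (((s : ℝ) + 1) / (2 * ((s + 1) + 1)) * (#A : ℝ) -
        (edgesIn G A : ℝ) / (#A : ℝ)) := by
    refine sum_le_sum fun A hA => ?_
    have hne : 1 ≤ #A := Finset.card_pos.mpr (P.nonempty_of_mem_parts hA)
    refine part_deficiency (by exact_mod_cast hne) (by exact_mod_cast hΔ1) (by positivity)
      ?_ (by linarith [(Nat.cast_nonneg s : (0 : ℝ) ≤ s)]) ?_ ?_ ?_ ?_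
    · have := hcard A
      have h : R A ≤ #A := by omega
      exact_mod_cast h
    · rcases Nat.lt_or_ge (2 * Δ) (#A) with h | h
      · right; exact_mod_cast h
      · left; exact_mod_cast h
    · rcases Nat.eq_zero_or_pos (R A) with h | h
      · left; exact_mod_cast h
      · right; exact_mod_cast h
    · have h1 := hD A
      rw [← two_mul_edgesIn] at h1
      have h2 : 2 * ((s + 1) * (s + 1 + 1)) * edgesIn G A + (R A) ^ 2 ≤
          (s + 1) ^ 2 * (#A) ^ 2 := by
        calc 2 * ((s + 1) * (s + 1 + 1)) * edgesIn G A + (R A) ^ 2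
            = (s + 1) * (s + 2) * (2 * edgesIn G A) + (R A) ^ 2 := by ring
          _ ≤ _ := h1
      exact_mod_cast h2
    · have h1 := darts_le_degree G hΔ A
      rw [← two_mul_edgesIn] at h1
      exact_mod_cast h1
  rw [sum_sub_distrib, ← sum_div, ← mul_sum] at hsum
  rw [hn]
  refine le_trans ?_ hsum
  have hΔ0 : (0 : ℝ) < 4 * (((s : ℝ) + 1) * ((s + 1) + 1)) * Δ := by
    have : (0 : ℝ) < Δ := by exact_mod_cast hΔ1
    positivity
  rw [div_le_div_iff_of_pos_right hΔ0]
  have hR : ∑ A ∈ P.parts, (R A : ℝ) =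
      ∑ A ∈ P.parts, (#A : ℝ) - ((s : ℝ) + 2) * ∑ A ∈ P.parts, (#(T A) : ℝ) := by
    rw [mul_sum, ← sum_sub_distrib]
    refine sum_congr rfl fun A _ => ?_
    have := hcard A
    have h : (((s + 2) * #(T A) + R A : ℕ) : ℝ) = #A := by exact_mod_cast this
    push_cast at h
    linarith
  rw [hR]
  have h3 : ((s : ℝ) + 2) * ∑ A ∈ P.parts, (#(T A) : ℝ) ≤
      ((s : ℝ) + 2) * packingNumber G (s + 2) :=
    mul_le_mul_of_nonneg_left hτ (by positivity)
  linarith

theorem edgesIn_clique [DecidableEq V] (G : SimpleGraph V) {t : Finset V} {r : ℕ}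
    (ht : G.IsNClique (r + 1) t) : 2 * edgesIn G t = (r + 1) * r := by
  rw [two_mul_edgesIn]
  unfold darts
  have h1 : ∀ u ∈ t, ∑ v ∈ t, adjI G u v = r := by
    intro u hu
    have h0 : adjI G u u = 0 := adjI_eq_zero (G.loopless.irrefl u)
    rw [← add_sum_erase t _ hu, h0, zero_add]
    have h2 : ∀ v ∈ t.erase u, adjI G u v = 1 := by
      intro v hv
      rw [mem_erase] at hv
      exact adjI_eq_one (ht.isClique hu hv.2 (Ne.symm hv.1))
    rw [sum_congr rfl h2, sum_const, smul_eq_mul, mul_one, card_erase_of_mem hu, ht.card_eq]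
    simp
  rw [sum_congr rfl h1, sum_const, ht.card_eq, smul_eq_mul]

/-- A clique packing together with single vertices is a partition of density the number of
cliques times `r / 2`, for cliques on `r + 1` vertices. -/
theorem packing_le_OPT [Fintype V] [DecidableEq V] (G : SimpleGraph V) (r : ℕ)
    (T : Finset (Finset V)) (hT : IsCliquePacking G (r + 1) T) :
    (r : ℝ) / 2 * (#T : ℝ) ≤ OPT G := by
  set U := T.biUnion id with hU
  have hne : ∀ t ∈ T, t.Nonempty := fun t ht => by
    rw [← card_pos, (hT.1 t ht).card_eq]; omega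
  let P : Finpartition (univ : Finset V) :=
    { parts := T ∪ (univ \ U).image (fun v => {v})
      supIndep := by
        rw [supIndep_iff_pairwiseDisjoint]
        have hx : ∀ t ∈ T, ∀ v, v ∉ U → Disjoint t {v} := by
          intro t ht v hv
          rw [Finset.disjoint_singleton_right]
          intro h
          exact hv (mem_biUnion.mpr ⟨t, ht, h⟩)
        intro s hs t ht hst
        rw [mem_coe, mem_union, mem_image] at hs ht
        rcases hs with hs | ⟨v, hv, rfl⟩ <;> rcases ht with ht | ⟨w, hw, rfl⟩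
        · exact hT.2 hs ht hst
        · exact hx s hs w (mem_sdiff.mp hw).2
        · exact (hx t ht v (mem_sdiff.mp hv).2).symm
        · rw [Function.onFun, id, id, Finset.disjoint_singleton]
          rintro rfl
          exact hst rfl
      sup_parts := by
        rw [eq_univ_iff_forall]
        intro v
        rw [mem_sup]
        by_cases hv : v ∈ U
        · obtain ⟨t, ht, hvt⟩ := mem_biUnion.mp hv
          exact ⟨t, mem_union_left _ ht, hvt⟩
        · exact ⟨{v}, mem_union_right _ (mem_image.mpr ⟨v, by simp [hv], rfl⟩), by simp⟩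
      bot_notMem := by
        rw [mem_union, mem_image]
        rintro (h | ⟨v, -, h⟩)
        · exact (hne _ h).ne_empty rfl
        · exact singleton_ne_empty v h }
  refine le_trans ?_ (density_le_OPT G P)
  unfold density
  have h1 : ∑ A ∈ T, (edgesIn G A : ℝ) / (#A : ℝ) = (r : ℝ) / 2 * #T := by
    have : ∀ A ∈ T, (edgesIn G A : ℝ) / (#A : ℝ) = (r : ℝ) / 2 := by
      intro A hA
      have h2 : ((2 * edgesIn G A : ℕ) : ℝ) = (((r + 1) * r : ℕ) : ℝ) := by
        exact_mod_cast edgesIn_clique G (hT.1 A hA)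
      push_cast at h2
      rw [(hT.1 A hA).card_eq]
      have h3 : (0 : ℝ) < ((r + 1 : ℕ) : ℝ) := by positivity
      rw [div_eq_div_iff h3.ne' (by norm_num)]
      push_cast
      linarith
    rw [sum_congr rfl this]
    simp [mul_comm]
  rw [← h1]
  refine sum_le_sum_of_subset_of_nonneg subset_union_left fun A _ _ => ?_
  positivity

/-- In a graph without a clique on `r + 1` vertices and with maximum degree at most `Δ`, the
deficiency `(r - 1) n / (2 r) - OPT` and the number of vertices missed by a maximum packing by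
cliques on `r` vertices agree up to a constant factor. -/
theorem clique_gap [Fintype V] [DecidableEq V] (G : SimpleGraph V) (r : ℕ) (hr : 2 ≤ r)
    (hG : G.CliqueFree (r + 1)) {Δ : ℕ} (hΔ1 : 1 ≤ Δ) (hΔ : ∀ v, (G.neighborSet v).ncard ≤ Δ) :
    ((Fintype.card V : ℝ) - r * packingNumber G r) / (4 * r * (r - 1) * Δ) ≤
      (r - 1) / (2 * r) * (Fintype.card V : ℝ) - OPT G ∧
    (r - 1) / (2 * r) * (Fintype.card V : ℝ) - OPT G ≤
      (r - 1) / (2 * r) * ((Fintype.card V : ℝ) - r * packingNumber G r) := by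
  obtain ⟨s, rfl⟩ : ∃ s, r = s + 2 := ⟨r - 2, by omega⟩
  refine ⟨?_, ?_⟩
  · obtain ⟨P, hP⟩ := exists_density_eq_OPT G
    rw [← hP]
    have := deficiency_lower G s hG hΔ1 hΔ P
    push_cast
    convert this using 2
    · ring
    · congr 1
      ring
  · obtain ⟨T, hT, hcard⟩ := exists_packing_card_eq G (r := s + 2) (by omega)
    have := packing_le_OPT G (s + 1) T hT
    rw [hcard] at this
    push_cast at this ⊢
    have e : ((s : ℝ) + 2 - 1) / (2 * (s + 2)) *
        ((Fintype.card V : ℝ) - (s + 2) * packingNumber G (s + 2)) =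
        ((s : ℝ) + 2 - 1) / (2 * (s + 2)) * (Fintype.card V : ℝ) -
          ((s : ℝ) + 1) / 2 * packingNumber G (s + 2) := by
      field_simp
      ring
    rw [e]
    linarith

end Pool.Agent.Lib.MP_0b8c1e_lc
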