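import Pool.Agent.Lib.MP_0b8c1e_lc.Gap

set_option autoImplicit false

/-!
# Dense Graph Partition: densities of labellings, and isomorphic graphs
-/

namespace Pool.Agent.Lib.MP_0b8c1e_lc

open Finset

/-- The partition of the vertex set into the classes of vertices with the same label. -/
def labelPartition {V L : Type*} [Fintype V] [DecidableEq V] [DecidableEq L] (l : V → L) :
    Finpartition (univ : Finset V) :=
  letI : DecidableRel (Setoid.ker l).r := fun v w => inferInstanceAs (Decidable (l v = l w))
  Finpartition.ofSetoid (Setoid.ker l)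

theorem labelPartition_part_eq {V L : Type*} [Fintype V] [DecidableEq V] [DecidableEq L]
    (l : V → L) (v w : V) :
    (labelPartition l).part w = (labelPartition l).part v ↔ l w = l v := by
  rw [← Finpartition.mem_part_iff_part_eq_part _ (mem_univ w) (mem_univ v)]
  unfold labelPartition
  rw [Finpartition.mem_part_ofSetoid_iff_rel]
  exact ⟨fun h => h.symm, fun h => h.symm⟩

/-- The density of the partition into classes of vertices with the same label, as a sum over the
vertices. -/
noncomputable def dens {V L : Type*} [Fintype V] [DecidableEq L] (G : SimpleGraph V) (l : V → L) :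
    ℝ :=
  ∑ v, ((∑ w ∈ univ.filter (fun w => l w = l v), adjI G v w : ℕ) : ℝ) /
    (2 * (#(univ.filter fun w => l w = l v) : ℝ))

theorem dens_congr {V L L' : Type*} [Fintype V] [DecidableEq L] [DecidableEq L']
    (G : SimpleGraph V) (l : V → L) (l' : V → L') (h : ∀ v w, l w = l v ↔ l' w = l' v) :
    dens G l = dens G l' := by
  unfold dens
  refine sum_congr rfl fun v _ => ?_
  have : (univ.filter fun w => l w = l v) = univ.filter fun w => l' w = l' v := by
    ext w
    simp only [mem_filter, mem_univ, true_and]
    exact h v w
  rw [this]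

theorem density_eq_dens {V : Type*} [Fintype V] [DecidableEq V] (G : SimpleGraph V)
    (P : Finpartition (univ : Finset V)) : density G P = dens G P.part := by
  unfold density dens
  have hpart : ∀ A ∈ P.parts, ∀ v ∈ A, (univ.filter fun w => P.part w = P.part v) = A := by
    intro A hA v hv
    ext w
    simp only [mem_filter, mem_univ, true_and]
    rw [P.part_eq_of_mem hA hv]
    exact P.part_eq_iff_mem hA
  have h1 : (univ : Finset V) = P.parts.biUnion id := P.biUnion_parts.symm
  have h2 : ∀ f : V → ℝ, ∑ v, f v = ∑ A ∈ P.parts, ∑ v ∈ A, f v := by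
    intro f
    conv_lhs => rw [h1]
    rw [sum_biUnion P.disjoint]
    rfl
  rw [h2]
  refine sum_congr rfl fun A hA => ?_
  have h3 : ∀ v ∈ A, ((∑ w ∈ univ.filter (fun w => P.part w = P.part v), adjI G v w : ℕ) : ℝ) /
      (2 * (#(univ.filter fun w => P.part w = P.part v) : ℝ)) =
      ((∑ w ∈ A, adjI G v w : ℕ) : ℝ) / (2 * (#A : ℝ)) := by
    intro v hv
    rw [hpart A hA v hv]
  rw [sum_congr rfl h3, ← sum_div, ← Nat.cast_sum]
  have h4 : ∑ v ∈ A, ∑ w ∈ A, adjI G v w = 2 * edgesIn G A := (two_mul_edgesIn G A).symm
  rw [h4]
  have h5 : (0 : ℝ) < #A := by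
    have := (P.nonempty_of_mem_parts hA).card_pos
    exact_mod_cast this
  push_cast
  field_simp

theorem density_labelPartition {V L : Type*} [Fintype V] [DecidableEq V] [DecidableEq L]
    (G : SimpleGraph V) (l : V → L) : density G (labelPartition l) = dens G l := by
  rw [density_eq_dens]
  exact dens_congr G _ l (fun v w => labelPartition_part_eq l v w)

theorem dens_comap {V W L : Type*} [Fintype V] [Fintype W] [DecidableEq L] (G : SimpleGraph W)
    (e : V ≃ W) (l : W → L) : dens (G.comap e) (fun v => l (e v)) = dens G l := by
  unfold dens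
  rw [← Equiv.sum_comp e]
  refine sum_congr rfl fun v _ => ?_
  have h1 : (univ.filter fun w : W => l w = l (e v)) =
      (univ.filter fun w : V => l (e w) = l (e v)).map e.toEmbedding := by
    ext w
    simp only [mem_filter, mem_univ, true_and, mem_map, Equiv.coe_toEmbedding]
    constructor
    · intro h
      exact ⟨e.symm w, by simpa using h, by simp⟩
    · rintro ⟨u, hu, rfl⟩
      exact hu
  rw [h1, card_map, sum_map]
  rfl

theorem density_comap {V W : Type*} [Fintype V] [Fintype W] [DecidableEq V] [DecidableEq W]
    (G : SimpleGraph W) (e : V ≃ W) (P : Finpartition (univ : Finset V)) :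
    ∃ P' : Finpartition (univ : Finset W), density G P' = density (G.comap e) P := by
  refine ⟨labelPartition fun w => P.part (e.symm w), ?_⟩
  rw [density_labelPartition, density_eq_dens, ← dens_comap G e]
  simp

theorem density_comap' {V W : Type*} [Fintype V] [Fintype W] [DecidableEq V] [DecidableEq W]
    (G : SimpleGraph W) (e : V ≃ W) (P : Finpartition (univ : Finset W)) :
    ∃ P' : Finpartition (univ : Finset V), density (G.comap e) P' = density G P := by
  refine ⟨labelPartition fun v => P.part (e v), ?_⟩
  rw [density_labelPartition, density_eq_dens, ← dens_comap G e]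

theorem OPT_comap {V W : Type*} [Fintype V] [Fintype W] [DecidableEq V] [DecidableEq W]
    (G : SimpleGraph W) (e : V ≃ W) : OPT (G.comap e) = OPT G := by
  apply le_antisymm
  · obtain ⟨P, hP⟩ := exists_density_eq_OPT (G.comap e)
    obtain ⟨P', hP'⟩ := density_comap G e P
    rw [← hP, ← hP']
    exact density_le_OPT G P'
  · obtain ⟨P, hP⟩ := exists_density_eq_OPT G
    obtain ⟨P', hP'⟩ := density_comap' G e P
    rw [← hP, ← hP']
    exact density_le_OPT _ P'

end Pool.Agent.Lib.MP_0b8c1e_lc
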