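import Pool.Agent.Lib.MP_0b8c1e_lc.SatDefs
import Pool.Agent.Lib.MP_0b8c1e_lc.PtDens
import Pool.Agent.Lib.MP_711ea9_lc.Lang

set_option autoImplicit false

/-!
# Dense Graph Partition: polynomial-time algorithms

Programs (`Cmd`), their memory (`Store`), the result `exec` and the running time `cost` (with
logarithmic cost) are defined in `Pool/Agent/Lib/MP_711ea9_lc/Lang.lean`.
-/

namespace Pool.Agent.Lib.MP_0b8c1e_lc

open Finset Pool.Agent.Lib.MP_711ea9_lc

/-- A 3-CNF formula with `m` clauses. As there are at most `3 m` variables, the variables are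
numbered `0, …, 3 m - 1`. -/
abbrev Formula (m : ℕ) : Type := CNF3 (Fin (3 * m)) m

/-- The code of the literal `j % 3` of the clause `j / 3`: it is `2 x + 1` for the variable `x`,
and `2 x` for its negation. -/
def code {m : ℕ} (φ : Formula m) (j : ℕ) : ℕ :=
  if h : j < 3 * m then
    2 * ((φ ⟨j / 3, by omega⟩ ⟨j % 3, by omega⟩).1 : ℕ) +
      (if (φ ⟨j / 3, by omega⟩ ⟨j % 3, by omega⟩).2 = true then 1 else 0)
  else 0

/-- The memory at the start of a computation whose input is the formula: variable 0 holds the
number `m` of clauses, and the first `3 m` entries of array 0 hold the codes of the literals. All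
other entries are zero. -/
def formulaInput {m : ℕ} (φ : Formula m) : Store where
  var := fun x => if x = 0 then m else 0
  arr := fun a j => if a = 0 then code φ j else 0

open scoped Classical in
/-- The memory at the start of a computation whose input is the graph `G` on `n` vertices:
variable 0 holds `n`, and array 0 holds the adjacency matrix, row by row. All other entries are
zero. -/
noncomputable def graphInput {n : ℕ} (G : SimpleGraph (Fin n)) : Store where
  var := fun x => if x = 0 then n else 0
  arr := fun a i => if a = 0 ∧ ∃ u v : Fin n, G.Adj u v ∧ i = u * n + v then 1 else 0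

/-- On the graphs of the class `𝒢` the program `p` finds, in time polynomial in the number of
vertices, a partition of density at least `(1 - δ) OPT`. The output is in array 1, whose entry `v`
is the number (less than `n`) of the part of the vertex `v`. -/
def Approximates (p : Cmd) (𝒢 : ∀ n : ℕ, SimpleGraph (Fin n) → Prop) (δ : ℝ) : Prop :=
  ∃ k : ℕ, ∀ (n : ℕ) (G : SimpleGraph (Fin n)), 𝒢 n G →
    p.cost (graphInput G) ≤ (n + 2) ^ k ∧
    (∀ v : Fin n, (p.exec (graphInput G)).arr 1 v < n) ∧
    (1 - δ) * OPT G ≤
      density G (labelPartition fun v : Fin n => (p.exec (graphInput G)).arr 1 v)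

/-- Dense Graph Partition has a polynomial-time approximation scheme. -/
def HasPTAS : Prop := ∀ δ : ℝ, 0 < δ → ∃ p : Cmd, Approximates p (fun _ _ => True) δ

/-- The graphs which are 3-colourable and have maximum degree at most 6. -/
def Sparse (n : ℕ) (G : SimpleGraph (Fin n)) : Prop :=
  G.Colorable 3 ∧ ∀ v, (G.neighborSet v).ncard ≤ 6

/-- The program `q` decides, in time polynomial in the number `m ≥ 1` of clauses, the gap version
of 3SAT for 3-CNF formulas in which every variable occurs at most `B` times: variable 0 is 1 at
the end if the formula is satisfiable, and 0 if every assignment falsifies at least `ε m`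
clauses. -/
def DecidesGap (q : Cmd) (B : ℕ) (ε : ℝ) : Prop :=
  ∃ k : ℕ, ∀ (m : ℕ) (φ : Formula m), 1 ≤ m → (∀ x, #(occurrences φ x) ≤ B) →
    q.cost (formulaInput φ) ≤ (m + 2) ^ k ∧
    ((∃ a, unsat φ a = 0) → (q.exec (formulaInput φ)).var 0 = 1) ∧
    ((∀ a, ε * m ≤ unsat φ a) → (q.exec (formulaInput φ)).var 0 = 0)

end Pool.Agent.Lib.MP_0b8c1e_lc
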