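import Pool.Agent.Lib.MP_0b8c1e_lc.SatAdj
import Pool.Agent.Lib.MP_0b8c1e_lc.Gap

set_option autoImplicit false
set_option linter.unusedSectionVars false

/-!
# The graph of a 3-CNF formula: triangle packings and assignments
-/

namespace Pool.Agent.Lib.MP_0b8c1e_lc

open Finset

variable {X : Type*} [DecidableEq X] {m B : ℕ} [NeZero B]

/-- The triangle on an edge of a cycle and its tip. -/
def triV (k : Fin 3) (x : X) (p : Fin B × Bool) : Finset (Vtx X m B) :=
  {.core k x p, .core k x (nxt p), .tip k x p}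

/-- The triangle of a clause and the tip of a literal. -/
def triC (k : Fin 3) (c : Fin m) (x : X) (p : Fin B × Bool) : Finset (Vtx X m B) :=
  {.cls k c false, .cls k c true, .tip k x p}

/-- The triangle of the three copies of a tip. -/
def triT (x : X) (p : Fin B × Bool) : Finset (Vtx X m B) :=
  {.tip 0 x p, .tip 1 x p, .tip 2 x p}

theorem exists_of_mem_triangle {V : Type*} [DecidableEq V] {G : SimpleGraph V} {t : Finset V}
    (ht : G.IsNClique 3 t) {v : V} (hv : v ∈ t) :
    ∃ b c, G.Adj v b ∧ G.Adj v c ∧ G.Adj b c ∧ t = {v, b, c} := by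
  rw [SimpleGraph.is3Clique_iff] at ht
  obtain ⟨a, b, c, hab, hac, hbc, rfl⟩ := ht
  rw [mem_insert, mem_insert, mem_singleton] at hv
  rcases hv with rfl | rfl | rfl
  · exact ⟨b, c, hab, hac, hbc, rfl⟩
  · exact ⟨a, c, hab.symm, hbc, hac, by rw [insert_comm]⟩
  · refine ⟨a, b, hac.symm, hbc.symm, hab, ?_⟩
    rw [pair_comm b v, insert_comm]

/-- A triangle through a core vertex. -/
theorem triangle_core (φ : CNF3 X m) {t : Finset (Vtx X m B)}
    (ht : (satGraph B φ).IsNClique 3 t) {k : Fin 3} {x : X} {p : Fin B × Bool}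
    (hv : Vtx.core k x p ∈ t) : ∃ q, (p = q ∨ p = nxt q) ∧ t = triV k x q := by
  have par : ∀ {p q : Fin B × Bool}, p = nxt q → p.2 = !q.2 := by
    rintro p q rfl; exact nxt_snd q
  have contra : ∀ {a b c : Bool}, a = !b → c = !b → (a = !c) → False := by decide
  have main : ∀ {y y' : X} {k' k'' : Fin 3} {p' q : Fin B × Bool},
      (satGraph B φ).Adj (.core k x p) (.core k' y p') →
      (satGraph B φ).Adj (.core k x p) (.tip k'' y' q) →
      (satGraph B φ).Adj (.core k' y p') (.tip k'' y' q) →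
      ∃ r, (p = r ∨ p = nxt r) ∧
        ({.core k x p, .core k' y p', .tip k'' y' q} : Finset (Vtx X m B)) = triV k x r := by
    intro y y' k' k'' p' q h1 h2 h3
    rw [adj_core_core] at h1
    rw [adj_core_tip] at h2 h3
    obtain ⟨rfl, rfl, h1⟩ := h1
    obtain ⟨rfl, rfl, h2⟩ := h2
    obtain ⟨-, -, h3⟩ := h3
    rcases h1 with rfl | rfl
    · rcases h2 with rfl | rfl
      · exact ⟨p, Or.inl rfl, rfl⟩
      · rcases h3 with h3 | h3
        · refine ⟨q, Or.inr rfl, ?_⟩
          rw [h3, triV, insert_comm]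
        · exact absurd (nxt_injective h3) (ne_nxt q).symm
    · rcases h2 with h2 | h2
      · rcases h3 with h3 | h3
        · exact absurd (h3.trans h2.symm) (ne_nxt p')
        · refine ⟨nxt p', Or.inl rfl, ?_⟩
          rw [triV, h2, ← h3]
      · have : p' = q := nxt_injective h2
        subst this
        refine ⟨p', Or.inr rfl, ?_⟩
        rw [triV, insert_comm]
  obtain ⟨b, c, hb, hc, hbc, rfl⟩ := exists_of_mem_triangle ht hv
  rcases b with ⟨k', x', p'⟩ | ⟨k', x', p'⟩ | ⟨k', c', s'⟩ <;>
    rcases c with ⟨k'', x'', p''⟩ | ⟨k'', x'', p''⟩ | ⟨k'', c'', s''⟩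
  · exfalso
    rw [adj_core_core] at hb hc hbc
    have e1 : p'.2 = !p.2 := by
      rcases hb.2.2 with h | h
      · exact par h
      · have := par h; rw [this, Bool.not_not]
    have e2 : p''.2 = !p.2 := by
      rcases hc.2.2 with h | h
      · exact par h
      · have := par h; rw [this, Bool.not_not]
    have e3 : p''.2 = !p'.2 := by
      rcases hbc.2.2 with h | h
      · exact par h
      · have := par h; rw [this, Bool.not_not]
    exact contra e2 e1 e3
  · exact main hb hc hbc
  · exact absurd hc (not_adj_core_cls φ)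
  · have := main hc hb hbc.symm
    rw [pair_comm]
    exact this
  · exfalso
    rw [adj_core_tip] at hb hc
    rw [adj_tip_tip] at hbc
    exact hbc.1 (hb.1.symm.trans hc.1)
  · exact absurd hc (not_adj_core_cls φ)
  · exact absurd hb (not_adj_core_cls φ)
  · exact absurd hb (not_adj_core_cls φ)
  · exact absurd hb (not_adj_core_cls φ)

/-- A triangle through a clause vertex. -/
theorem triangle_cls (φ : CNF3 X m) {t : Finset (Vtx X m B)}
    (ht : (satGraph B φ).IsNClique 3 t) {k : Fin 3} {c : Fin m} {s : Bool}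
    (hv : Vtx.cls k c s ∈ t) :
    ∃ i x p, φ c i = (x, p.2) ∧ rank φ (c, i) = p.1.val ∧ Vtx.tip k x p ∈ t ∧
      t = triC k c x p := by
  have main : ∀ {y : X} {k' k'' : Fin 3} {c' : Fin m} {s' : Bool} {q : Fin B × Bool},
      (satGraph B φ).Adj (.cls k c s) (.cls k' c' s') →
      (satGraph B φ).Adj (.cls k c s) (.tip k'' y q) →
      ∃ i x p, φ c i = (x, p.2) ∧ rank φ (c, i) = p.1.val ∧
        Vtx.tip k x p ∈ ({.cls k c s, .cls k' c' s', .tip k'' y q} : Finset (Vtx X m B)) ∧
        ({.cls k c s, .cls k' c' s', .tip k'' y q} : Finset (Vtx X m B)) = triC k c x p := by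
    intro y k' k'' c' s' q h1 h2
    rw [adj_cls_cls] at h1
    rw [adj_cls_tip] at h2
    obtain ⟨rfl, rfl, h1⟩ := h1
    obtain ⟨rfl, i, h2, h3⟩ := h2
    refine ⟨i, y, q, h2, h3, by simp, ?_⟩
    cases s <;> cases s'
    · exact absurd rfl h1
    · rfl
    · rw [triC, insert_comm]
    · exact absurd rfl h1
  obtain ⟨b, c, hb, hc, hbc, rfl⟩ := exists_of_mem_triangle ht hv
  rcases b with ⟨k', x', p'⟩ | ⟨k', x', p'⟩ | ⟨k', c', s'⟩ <;>
    rcases c with ⟨k'', x'', p''⟩ | ⟨k'', x'', p''⟩ | ⟨k'', c'', s''⟩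
  · exact absurd hb (not_adj_cls_core φ)
  · exact absurd hb (not_adj_cls_core φ)
  · exact absurd hb (not_adj_cls_core φ)
  · exact absurd hc (not_adj_cls_core φ)
  · exfalso
    rw [adj_cls_tip] at hb hc
    rw [adj_tip_tip] at hbc
    exact hbc.1 (hb.1.symm.trans hc.1)
  · rw [pair_comm]
    exact main hc hb
  · exact absurd hc (not_adj_cls_core φ)
  · exact main hb hc
  · exfalso
    rw [adj_cls_cls] at hb hc hbc
    obtain ⟨-, -, h1⟩ := hb
    obtain ⟨-, -, h2⟩ := hc
    obtain ⟨-, -, h3⟩ := hbc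
    cases s <;> cases s' <;> cases s'' <;> simp_all

/-! ### Soundness -/

/-- The vertices covered by a family of sets. -/
def Covered {V : Type*} (T : Finset (Finset V)) (v : V) : Prop := ∃ t ∈ T, v ∈ t

theorem packing_eq {V : Type*} [DecidableEq V] {G : SimpleGraph V} {T : Finset (Finset V)}
    (hT : IsCliquePacking G 3 T) {s t : Finset V} (hs : s ∈ T) (ht : t ∈ T) {v : V}
    (hvs : v ∈ s) (hvt : v ∈ t) : s = t := by
  by_contra hne
  exact Finset.disjoint_left.mp (hT.2 hs ht hne) hvs hvt

theorem triV_succ (φ : CNF3 X m) {T : Finset (Finset (Vtx X m B))}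
    (hT : IsCliquePacking (satGraph B φ) 3 T) {k : Fin 3} {x : X}
    (hcov : ∀ p : Fin B × Bool, Covered T (Vtx.core k x p)) (p : Fin B × Bool) :
    triV k x (nxt p) ∈ T ↔ triV k x p ∉ T := by
  constructor
  · intro h h'
    have e := packing_eq hT h h' (v := .core k x (nxt p)) (by simp [triV]) (by simp [triV])
    have h1 : (Vtx.tip k x p : Vtx X m B) ∈ triV k x (nxt p) := by
      rw [e]; simp [triV]
    have h2 := ne_nxt p
    simp [triV, h2] at h1
  · intro h
    obtain ⟨t, ht, hmem⟩ := hcov (nxt p)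
    obtain ⟨q, hq, rfl⟩ := triangle_core φ (hT.1 t ht) hmem
    rcases hq with hq | hq
    · rw [hq]; exact ht
    · have := nxt_injective hq
      subst this
      exact absurd ht h

theorem triV_const (φ : CNF3 X m) {T : Finset (Finset (Vtx X m B))}
    (hT : IsCliquePacking (satGraph B φ) 3 T) {k : Fin 3} {x : X}
    (hcov : ∀ p : Fin B × Bool, Covered T (Vtx.core k x p)) (j j' : Fin B) :
    triV k x (j, false) ∈ T ↔ triV k x (j', false) ∈ T := by
  have step : ∀ j : Fin B, triV k x (j + 1, false) ∈ T ↔ triV k x (j, false) ∈ T := by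
    intro j
    have h1 := triV_succ φ hT hcov (j, false)
    have h2 := triV_succ φ hT hcov (j, true)
    have e1 : nxt (j, false) = (j, true) := rfl
    have e2 : nxt (j, true) = (j + 1, false) := rfl
    rw [e1] at h1
    rw [e2] at h2
    rw [h2, h1, not_not]
  obtain ⟨n, hn⟩ : ∃ n, B = n + 1 := ⟨B - 1, by have := NeZero.pos B; omega⟩
  subst hn
  have base : ∀ j : Fin (n + 1), triV k x (j, false) ∈ T ↔ triV k x (0, false) ∈ T := by
    intro j
    induction j using Fin.induction with
    | zero => exact Iff.rfl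
    | succ i ih =>
      rw [← ih, ← Fin.coeSucc_eq_succ]
      exact step _
  rw [base j, base j']

/-- From a triangle packing of the graph missing `u` vertices one gets an assignment falsifying
at most `B u` clauses. -/
theorem soundness [Fintype X] (φ : CNF3 X m) (hB : ∀ x, #(occurrences φ x) ≤ B)
    (T : Finset (Finset (Vtx X m B))) (hT : IsCliquePacking (satGraph B φ) 3 T) :
    ∃ a : X → Bool, unsat φ a + B * (3 * #T) ≤ B * Fintype.card (Vtx X m B) := by
  classical
  let a : X → Bool := fun x => decide (∃ j : Fin B, triV 0 x (j, false) ∈ T)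
  refine ⟨a, ?_⟩
  set U : Finset (Vtx X m B) := univ.filter fun v => ¬ Covered T v with hU
  have hUcard : #U + 3 * #T = Fintype.card (Vtx X m B) := by
    have h1 : #(T.biUnion id) = ∑ t ∈ T, #(id t) := card_biUnion hT.2
    have h2 : ∑ t ∈ T, #(id t) = ∑ t ∈ T, 3 := sum_congr rfl fun t ht => (hT.1 t ht).card_eq
    rw [h2, sum_const, smul_eq_mul] at h1
    have h3 : U = (T.biUnion id)ᶜ := by
      ext v
      simp [hU, Covered]
    rw [h3, card_compl, h1]
    have h4 : #(T.biUnion id) ≤ Fintype.card (Vtx X m B) := card_le_univ _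
    omega
  -- every falsified clause points to an uncovered vertex
  have hpoint : ∀ c : Fin m, (∀ i, a (φ c i).1 ≠ (φ c i).2) →
      Vtx.cls 0 c false ∈ U ∨ ∃ i p, (Vtx.core 0 (φ c i).1 p : Vtx X m B) ∈ U := by
    intro c hc
    by_contra hcon
    push Not at hcon
    obtain ⟨h1, h2⟩ := hcon
    have hcovc : Covered T (Vtx.cls 0 c false) := by
      by_contra h
      exact h1 (by rw [hU, mem_filter]; exact ⟨mem_univ _, h⟩)
    obtain ⟨t, ht, hmem⟩ := hcovc
    obtain ⟨i, x, p, e1, e2, htip, rfl⟩ := triangle_cls φ (hT.1 t ht) hmem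
    have hcov : ∀ q : Fin B × Bool, Covered T (Vtx.core 0 x q) := by
      intro q
      by_contra h
      refine h2 i q ?_
      rw [hU, mem_filter, e1]
      exact ⟨mem_univ _, h⟩
    have hnot : triV 0 x p ∉ T := by
      intro h
      have e := packing_eq hT h ht (v := .tip 0 x p) (by simp [triV]) htip
      have h3 : (Vtx.core 0 x p : Vtx X m B) ∈ triC 0 c x p := by
        rw [← e]; simp [triV]
      simp [triC] at h3
    apply hc i
    rw [e1]
    show decide (∃ j : Fin B, triV 0 x (j, false) ∈ T) = p.2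
    rcases p with ⟨j, b⟩
    cases b
    · rw [decide_eq_false_iff_not]
      rintro ⟨j', hj'⟩
      exact hnot ((triV_const φ hT hcov j' j).mp hj')
    · rw [decide_eq_true_iff]
      refine ⟨j, ?_⟩
      by_contra h
      have := (triV_succ φ hT hcov (j, false)).mpr h
      exact hnot this
  -- choose the pointers
  have hpoint' : ∀ c : Fin m, ∃ v : Vtx X m B, (∀ i, a (φ c i).1 ≠ (φ c i).2) →
      v ∈ U ∧ (v = Vtx.cls 0 c false ∨ ∃ i p, v = Vtx.core 0 (φ c i).1 p) := by
    intro c
    by_cases hc : ∀ i, a (φ c i).1 ≠ (φ c i).2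
    · rcases hpoint c hc with h | ⟨i, p, h⟩
      · exact ⟨_, fun _ => ⟨h, Or.inl rfl⟩⟩
      · exact ⟨_, fun _ => ⟨h, Or.inr ⟨i, p, rfl⟩⟩⟩
    · exact ⟨Vtx.cls 0 c false, fun h => absurd h hc⟩
  choose f hf using hpoint'
  have hle : unsat φ a ≤ B * #U := by
    unfold unsat
    refine card_le_mul_card_image_of_maps_to (f := f) ?_ B ?_
    · intro c hc
      rw [mem_filter] at hc
      exact (hf c hc.2).1
    · intro v hv
      rcases v with ⟨k, x, p⟩ | ⟨k, x, p⟩ | ⟨k, c, s⟩
      · refine le_trans ?_ (hB x)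
        have hsub : ((univ.filter fun c : Fin m => ∀ i, a (φ c i).1 ≠ (φ c i).2).filter
            fun c => f c = Vtx.core k x p) ⊆ (occurrences φ x).image Prod.fst := by
          intro c hc
          rw [mem_filter, mem_filter] at hc
          obtain ⟨⟨-, hc1⟩, hc2⟩ := hc
          rcases (hf c hc1).2 with h | ⟨i, q, h⟩
          · rw [hc2] at h; exact absurd h (by simp)
          · rw [hc2, Vtx.core.injEq] at h
            rw [mem_image]
            refine ⟨(c, i), ?_, rfl⟩
            rw [occurrences, mem_filter]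
            exact ⟨mem_univ _, h.2.1.symm⟩
        exact (card_le_card hsub).trans card_image_le
      · have : ((univ.filter fun c : Fin m => ∀ i, a (φ c i).1 ≠ (φ c i).2).filter
            fun c => f c = Vtx.tip k x p) = ∅ := by
          rw [eq_empty_iff_forall_notMem]
          intro c hc
          rw [mem_filter, mem_filter] at hc
          obtain ⟨⟨-, hc1⟩, hc2⟩ := hc
          rcases (hf c hc1).2 with h | ⟨i, q, h⟩ <;> rw [hc2] at h <;> exact absurd h (by simp)
        rw [this]
        simp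
      · have hsub : ((univ.filter fun c : Fin m => ∀ i, a (φ c i).1 ≠ (φ c i).2).filter
            fun c' => f c' = Vtx.cls k c s) ⊆ {c} := by
          intro c' hc
          rw [mem_filter, mem_filter] at hc
          obtain ⟨⟨-, hc1⟩, hc2⟩ := hc
          rcases (hf c' hc1).2 with h | ⟨i, q, h⟩
          · rw [hc2, Vtx.cls.injEq] at h
            rw [mem_singleton]; exact h.2.1.symm
          · rw [hc2] at h; exact absurd h (by simp)
        exact (card_le_card hsub).trans (by rw [card_singleton]; exact NeZero.one_le)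
  calc unsat φ a + B * (3 * #T) ≤ B * #U + B * (3 * #T) := Nat.add_le_add_right hle _
    _ = B * Fintype.card (Vtx X m B) := by rw [← mul_add, hUcard]

/-! ### Completeness -/

/-- A family of triangles given by a map sending every vertex of `S` to its triangle. -/
theorem packing_of_map {V : Type*} [DecidableEq V] {G : SimpleGraph V} (S : Finset V)
    (f : V → Finset V) (h1 : ∀ v ∈ S, G.IsNClique 3 (f v)) (h2 : ∀ v ∈ S, v ∈ f v)
    (h3 : ∀ v ∈ S, ∀ w ∈ f v, w ∈ S ∧ f w = f v) :
    IsCliquePacking G 3 (S.image f) ∧ 3 * #(S.image f) = #S := by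
  have hpack : IsCliquePacking G 3 (S.image f) := by
    refine ⟨?_, ?_⟩
    · intro t ht
      rw [mem_image] at ht
      obtain ⟨v, hv, rfl⟩ := ht
      exact h1 v hv
    · intro s hs t ht hst
      rw [mem_coe, mem_image] at hs ht
      obtain ⟨v, hv, rfl⟩ := hs
      obtain ⟨w, hw, rfl⟩ := ht
      rw [Function.onFun, id, id, Finset.disjoint_left]
      intro x hx hx'
      exact hst ((h3 v hv x hx).2.symm.trans (h3 w hw x hx').2)
  refine ⟨hpack, ?_⟩
  have h4 : #((S.image f).biUnion id) = ∑ t ∈ S.image f, #(id t) := card_biUnion hpack.2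
  have h5 : ∑ t ∈ S.image f, #(id t) = ∑ t ∈ S.image f, 3 :=
    sum_congr rfl fun t ht => (hpack.1 t ht).card_eq
  rw [h5, sum_const, smul_eq_mul] at h4
  have h6 : (S.image f).biUnion id = S := by
    ext v
    rw [mem_biUnion]
    constructor
    · rintro ⟨t, ht, hvt⟩
      rw [mem_image] at ht
      obtain ⟨w, hw, rfl⟩ := ht
      exact (h3 w hw v hvt).1
    · intro hv
      exact ⟨f v, mem_image_of_mem f hv, h2 v hv⟩
  rw [h6] at h4
  rw [h4, mul_comm]

theorem triV_clique (φ : CNF3 X m) (k : Fin 3) (x : X) (p : Fin B × Bool) :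
    (satGraph B φ).IsNClique 3 (triV k x p) := by
  rw [triV, SimpleGraph.is3Clique_triple_iff, adj_core_core, adj_core_tip, adj_core_tip]
  simp

theorem triT_clique (φ : CNF3 X m) (x : X) (p : Fin B × Bool) :
    (satGraph B φ).IsNClique 3 (triT x p) := by
  rw [triT, SimpleGraph.is3Clique_triple_iff, adj_tip_tip, adj_tip_tip, adj_tip_tip]
  simp

theorem triC_clique (φ : CNF3 X m) (hB : ∀ x, #(occurrences φ x) ≤ B) (k : Fin 3) (c : Fin m)
    (i : Fin 3) :
    (satGraph B φ).IsNClique 3 (triC k c (φ c i).1 (slotPos φ hB (c, i))) := by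
  rw [triC, SimpleGraph.is3Clique_triple_iff, adj_cls_cls, adj_cls_tip, adj_cls_tip]
  refine ⟨⟨rfl, rfl, by simp⟩, ⟨rfl, i, ?_, rfl⟩, ⟨rfl, i, ?_, rfl⟩⟩ <;> simp [slotPos]

/-- An assignment gives a triangle packing covering all vertices except those of the clauses it
falsifies. -/
theorem completeness [Fintype X] (φ : CNF3 X m) (hB : ∀ x, #(occurrences φ x) ≤ B)
    (a : X → Bool) :
    ∃ T : Finset (Finset (Vtx X m B)), IsCliquePacking (satGraph B φ) 3 T ∧
      3 * #T + 6 * unsat φ a = Fintype.card (Vtx X m B) := by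
  classical
  let good : Fin m → Prop := fun c => ∃ i, a (φ c i).1 = (φ c i).2
  have hch' : ∀ c, ∃ i, good c → a (φ c i).1 = (φ c i).2 := by
    intro c
    by_cases h : good c
    · obtain ⟨i, hi⟩ := h
      exact ⟨i, fun _ => hi⟩
    · exact ⟨0, fun h' => absurd h' h⟩
  choose ch hch using hch'
  choose prv hprv using (exists_prev : ∀ p : Fin B × Bool, ∃ q, nxt q = p)
  have hprv' : ∀ q : Fin B × Bool, prv (nxt q) = q := fun q => nxt_injective (hprv _)
  -- is the tip used by a clause?
  let used : X → Fin B × Bool → Fin m → Prop := fun x p c =>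
    good c ∧ φ c (ch c) = (x, p.2) ∧ rank φ (c, ch c) = p.1.val
  have used_unique : ∀ x p c c', used x p c → used x p c' → c = c' := by
    intro x p c c' h h'
    exact (slot_unique φ h.2.1 h.2.2 h'.2.1 h'.2.2).1
  let f : Vtx X m B → Finset (Vtx X m B)
    | .core k x p => if p.2 ≠ a x then triV k x p else triV k x (prv p)
    | .tip k x p =>
        if p.2 ≠ a x then triV k x p
        else if h : ∃ c, used x p c then triC k h.choose x p
        else triT x p
    | .cls k c _ => triC k c (φ c (ch c)).1 (slotPos φ hB (c, ch c))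
  have f_core : ∀ k x p, f (.core k x p) = if p.2 ≠ a x then triV k x p else triV k x (prv p) :=
    fun _ _ _ => rfl
  have f_tip1 : ∀ k x p, p.2 ≠ a x → f (.tip k x p) = triV k x p := by
    intro k x p h
    show (if p.2 ≠ a x then triV k x p
        else if h : ∃ c, used x p c then triC k h.choose x p
        else triT x p) = _
    rw [if_pos h]
  have f_tip2 : ∀ k x p c, p.2 = a x → used x p c → f (.tip k x p) = triC k c x p := by
    intro k x p c h hc
    show (if p.2 ≠ a x then triV k x p
        else if h : ∃ c, used x p c then triC k h.choose x p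
        else triT x p) = _
    have hex : ∃ c, used x p c := ⟨c, hc⟩
    rw [if_neg (by simpa using h), dif_pos hex]
    rw [used_unique x p _ _ hex.choose_spec hc]
  have f_tip3 : ∀ k x p, p.2 = a x → (¬ ∃ c, used x p c) → f (.tip k x p) = triT x p := by
    intro k x p h hc
    show (if p.2 ≠ a x then triV k x p
        else if h : ∃ c, used x p c then triC k h.choose x p
        else triT x p) = _
    rw [if_neg (by simpa using h), dif_neg hc]
  have used_slot : ∀ c, good c → used (φ c (ch c)).1 (slotPos φ hB (c, ch c)) c := fun c hc =>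
    ⟨hc, by simp [slotPos], rfl⟩
  have slot_sat : ∀ c, good c → (slotPos φ hB (c, ch c)).2 = a (φ c (ch c)).1 := fun c hc =>
    (hch c hc).symm
  have used_eq : ∀ x p c, used x p c → x = (φ c (ch c)).1 ∧ p = slotPos φ hB (c, ch c) := by
    rintro x p c ⟨-, h1, h2⟩
    refine ⟨by rw [h1], Prod.ext (Fin.ext ?_) ?_⟩
    · exact h2.symm
    · simp [slotPos, h1]
  -- the covered vertices
  set S : Finset (Vtx X m B) := univ.filter fun v => ∀ k c s, v = Vtx.cls k c s → good c with hS
  have hS_core : ∀ k x p, (Vtx.core k x p : Vtx X m B) ∈ S := by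
    intro k x p
    rw [hS, mem_filter]
    exact ⟨mem_univ _, fun _ _ _ h => absurd h (by simp)⟩
  have hS_tip : ∀ k x p, (Vtx.tip k x p : Vtx X m B) ∈ S := by
    intro k x p
    rw [hS, mem_filter]
    exact ⟨mem_univ _, fun _ _ _ h => absurd h (by simp)⟩
  have hS_cls : ∀ k c s, (Vtx.cls k c s : Vtx X m B) ∈ S ↔ good c := by
    intro k c s
    rw [hS, mem_filter]
    constructor
    · rintro ⟨-, h⟩; exact h k c s rfl
    · intro h
      refine ⟨mem_univ _, fun k' c' s' e => ?_⟩
      rw [Vtx.cls.injEq] at e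
      rw [← e.2.1]; exact h
  -- values of f on the three kinds of triangles
  have key1 : ∀ k x p, p.2 ≠ a x → ∀ w ∈ (triV k x p : Finset (Vtx X m B)),
      w ∈ S ∧ f w = triV k x p := by
    intro k x p h w hw
    rw [triV, mem_insert, mem_insert, mem_singleton] at hw
    rcases hw with rfl | rfl | rfl
    · rw [f_core, if_pos h]
      exact ⟨hS_core _ _ _, rfl⟩
    · have : ¬ ((nxt p).2 ≠ a x) := by
        rw [nxt_snd]
        revert h
        cases p.2 <;> cases a x <;> simp
      rw [f_core, if_neg this, hprv']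
      exact ⟨hS_core _ _ _, rfl⟩
    · exact ⟨hS_tip _ _ _, f_tip1 k x p h⟩
  have key2 : ∀ k c, good c → ∀ w ∈ (triC k c (φ c (ch c)).1 (slotPos φ hB (c, ch c)) :
      Finset (Vtx X m B)), w ∈ S ∧ f w = triC k c (φ c (ch c)).1 (slotPos φ hB (c, ch c)) := by
    intro k c hc w hw
    rw [triC, mem_insert, mem_insert, mem_singleton] at hw
    rcases hw with rfl | rfl | rfl
    · exact ⟨(hS_cls _ _ _).mpr hc, rfl⟩
    · exact ⟨(hS_cls _ _ _).mpr hc, rfl⟩
    · exact ⟨hS_tip _ _ _, f_tip2 k _ _ c (slot_sat c hc) (used_slot c hc)⟩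
  have key3 : ∀ x p, p.2 = a x → (¬ ∃ c, used x p c) →
      ∀ w ∈ (triT x p : Finset (Vtx X m B)), w ∈ S ∧ f w = triT x p := by
    intro x p h hc w hw
    rw [triT, mem_insert, mem_insert, mem_singleton] at hw
    rcases hw with rfl | rfl | rfl <;> exact ⟨hS_tip _ _ _, f_tip3 _ x p h hc⟩
  have hprv2 : ∀ (x : X) (p : Fin B × Bool), ¬ (p.2 ≠ a x) → (prv p).2 ≠ a x := by
    intro x p h
    have : p.2 = !(prv p).2 := by
      conv_lhs => rw [← hprv p]
      exact nxt_snd _
    rw [this] at h
    revert h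
    cases (prv p).2 <;> cases a x <;> simp
  -- every vertex of `S` lies in one of the triangles
  have main : ∀ v ∈ S, v ∈ f v ∧ (satGraph B φ).IsNClique 3 (f v) ∧
      ∀ w ∈ f v, w ∈ S ∧ f w = f v := by
    rintro (⟨k, x, p⟩ | ⟨k, x, p⟩ | ⟨k, c, s⟩) hv
    · by_cases h : p.2 ≠ a x
      · rw [f_core, if_pos h]
        exact ⟨by simp [triV], triV_clique φ k x p, key1 k x p h⟩
      · rw [f_core, if_neg h]
        refine ⟨?_, triV_clique φ k x _, key1 k x _ (hprv2 x p h)⟩
        rw [triV, hprv]
        simp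
    · by_cases h : p.2 ≠ a x
      · rw [f_tip1 k x p h]
        exact ⟨by simp [triV], triV_clique φ k x p, key1 k x p h⟩
      · have h' : p.2 = a x := not_not.mp h
        by_cases hc : ∃ c, used x p c
        · obtain ⟨c, hc⟩ := hc
          obtain ⟨e1, e2⟩ := used_eq x p c hc
          rw [f_tip2 k x p c h' hc]
          subst e1
          subst e2
          exact ⟨by simp [triC], triC_clique φ hB k c (ch c), key2 k c hc.1⟩
        · rw [f_tip3 k x p h' hc]
          refine ⟨?_, triT_clique φ x p, key3 x p h' hc⟩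
          have : ∀ k : Fin 3, k = 0 ∨ k = 1 ∨ k = 2 := by decide
          rw [triT]
          rcases this k with rfl | rfl | rfl <;> simp
    · refine ⟨?_, triC_clique φ hB k c (ch c), key2 k c ((hS_cls _ _ _).mp hv)⟩
      show Vtx.cls k c s ∈ triC k c (φ c (ch c)).1 (slotPos φ hB (c, ch c))
      rw [triC]
      cases s <;> simp
  obtain ⟨h1, h2⟩ := packing_of_map (G := satGraph B φ) S f (fun v hv => (main v hv).2.1)
    (fun v hv => (main v hv).1) (fun v hv => (main v hv).2.2)
  refine ⟨_, h1, ?_⟩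
  rw [h2]
  -- count the uncovered vertices
  have h3 : Sᶜ = ((univ : Finset (Fin 3)) ×ˢ (univ.filter fun c : Fin m =>
      ∀ i, a (φ c i).1 ≠ (φ c i).2) ×ˢ (univ : Finset Bool)).image
      (fun y => (Vtx.cls y.1 y.2.1 y.2.2 : Vtx X m B)) := by
    ext v
    rw [mem_compl, mem_image]
    constructor
    · intro hv
      rcases v with ⟨k, x, p⟩ | ⟨k, x, p⟩ | ⟨k, c, s⟩
      · exact absurd (hS_core k x p) hv
      · exact absurd (hS_tip k x p) hv
      · rw [hS_cls] at hv
        refine ⟨(k, c, s), ?_, rfl⟩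
        simp only [mem_product, mem_univ, mem_filter, true_and, and_true]
        intro i hi
        exact hv ⟨i, hi⟩
    · rintro ⟨⟨k, c, s⟩, hy, rfl⟩
      rw [hS_cls]
      rintro ⟨i, hi⟩
      simp only [mem_product, mem_univ, mem_filter, true_and, and_true] at hy
      exact hy i hi
  have h4 : #Sᶜ = 6 * unsat φ a := by
    rw [h3, card_image_of_injective]
    · rw [card_product, card_product, card_univ, card_univ, Fintype.card_fin, Fintype.card_bool,
        unsat]
      ring
    · rintro ⟨k, c, s⟩ ⟨k', c', s'⟩ h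
      rw [Vtx.cls.injEq] at h
      obtain ⟨rfl, rfl, rfl⟩ := h
      rfl
  rw [← h4, card_add_card_compl]

/-! ### The gap -/

theorem card_vtx_le [Fintype X] (φ : CNF3 X m) (hX : ∀ x, 1 ≤ #(occurrences φ x)) :
    Fintype.card (Vtx X m B) ≤ 42 * B * m := by
  have h1 : Fintype.card X ≤ 3 * m := by
    have h : (univ : Finset X) ⊆ (univ : Finset (Fin m × Fin 3)).image fun q => (φ q.1 q.2).1 := by
      intro x _
      obtain ⟨q, hq⟩ := card_pos.mp (hX x)
      rw [occurrences, mem_filter] at hq
      rw [mem_image]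
      exact ⟨q, mem_univ _, hq.2⟩
    have h2 := (card_le_card h).trans card_image_le
    rw [card_univ, card_univ, Fintype.card_prod, Fintype.card_fin, Fintype.card_fin] at h2
    omega
  rw [card_vtx]
  have hB : 1 ≤ B := NeZero.one_le
  have h3 : 12 * B * Fintype.card X ≤ 12 * B * (3 * m) := Nat.mul_le_mul_left _ h1
  have h4 : 6 * m ≤ 6 * B * m := by
    calc 6 * m = 6 * 1 * m := by ring
      _ ≤ 6 * B * m := Nat.mul_le_mul_right _ (Nat.mul_le_mul_left _ hB)
  calc 12 * B * Fintype.card X + 6 * m ≤ 12 * B * (3 * m) + 6 * B * m := Nat.add_le_add h3 h4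
    _ = 42 * B * m := by ring

theorem sat_complete [Fintype X] (φ : CNF3 X m) (hB : ∀ x, #(occurrences φ x) ≤ B)
    (a : X → Bool) :
    (Fintype.card (Vtx X m B) : ℝ) / 3 - OPT (satGraph B φ) ≤ 2 * unsat φ a := by
  obtain ⟨T, hT, hcard⟩ := completeness φ hB a
  have h := packing_le_OPT (satGraph B φ) 2 T hT
  have h2 : (3 : ℝ) * #T + 6 * unsat φ a = Fintype.card (Vtx X m B) := by exact_mod_cast hcard
  push_cast at h
  linarith

theorem sat_sound [Fintype X] (φ : CNF3 X m) (hB : ∀ x, #(occurrences φ x) ≤ B)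
    (P : Finpartition (univ : Finset (Vtx X m B))) :
    ∃ a : X → Bool, (unsat φ a : ℝ) ≤
      144 * B * ((Fintype.card (Vtx X m B) : ℝ) / 3 - density (satGraph B φ) P) := by
  obtain ⟨T, hT, hcard⟩ := exists_packing_card_eq (satGraph B φ) (r := 3) (by norm_num)
  have hgap := (clique_gap (satGraph B φ) 3 (by norm_num) (satGraph_cliqueFree φ)
    (Δ := 6) (by norm_num) (satGraph_degree_le φ hB)).1
  obtain ⟨a, ha⟩ := soundness φ hB T hT
  refine ⟨a, ?_⟩
  have h1 : (unsat φ a : ℝ) + B * (3 * #T) ≤ B * (Fintype.card (Vtx X m B) : ℝ) := by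
    exact_mod_cast ha
  rw [hcard] at h1
  push_cast at hgap
  rw [div_le_iff₀ (by norm_num)] at hgap
  have hB0 : (0 : ℝ) ≤ B := Nat.cast_nonneg B
  have h2 := mul_le_mul_of_nonneg_left hgap hB0
  have h3 := mul_le_mul_of_nonneg_left (density_le_OPT (satGraph B φ) P) hB0
  linarith

end Pool.Agent.Lib.MP_0b8c1e_lc
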