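import Pool.Agent.Lib.MP_0b8c1e_lc.SatDefs

set_option autoImplicit false
set_option linter.unusedSectionVars false

/-!
# The graph of a 3-CNF formula: adjacency, colouring, degrees
-/

namespace Pool.Agent.Lib.MP_0b8c1e_lc

open Finset

variable {X : Type*} [DecidableEq X] {m B : ℕ} [NeZero B]

/-! ### Positions -/

theorem nxt_snd (p : Fin B × Bool) : (nxt p).2 = !p.2 := by
  rcases p with ⟨j, b⟩
  cases b <;> simp [nxt]

theorem nxt_injective : Function.Injective (nxt : Fin B × Bool → Fin B × Bool) := by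
  rintro ⟨j, b⟩ ⟨j', b'⟩ h
  have hj : b = b' := by
    have := congrArg Prod.snd h
    rw [nxt_snd, nxt_snd] at this
    cases b <;> cases b' <;> simp_all
  subst hj
  cases b
  · have := congrArg Prod.fst h
    exact Prod.ext this rfl
  · have h1 : j + 1 = j' + 1 := congrArg Prod.fst h
    exact Prod.ext (add_right_cancel h1) rfl

theorem nxt_bijective : Function.Bijective (nxt : Fin B × Bool → Fin B × Bool) :=
  Finite.injective_iff_bijective.mp nxt_injective

theorem ne_nxt (p : Fin B × Bool) : p ≠ nxt p := by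
  intro h
  have := congrArg Prod.snd h
  rw [nxt_snd] at this
  revert this
  cases p.2 <;> simp

theorem exists_prev (p : Fin B × Bool) : ∃ q, nxt q = p := nxt_bijective.2 p

/-! ### Adjacency -/

section Adj

variable (φ : CNF3 X m)

theorem adj_core_core {k k' : Fin 3} {x x' : X} {p p' : Fin B × Bool} :
    (satGraph B φ).Adj (.core k x p) (.core k' x' p') ↔
      k = k' ∧ x = x' ∧ (p' = nxt p ∨ p = nxt p') := by
  rw [satGraph, SimpleGraph.fromRel_adj]
  simp only [satRel]
  constructor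
  · rintro ⟨_, (⟨rfl, rfl, h⟩ | ⟨rfl, rfl, h⟩)⟩
    · exact ⟨rfl, rfl, Or.inl h⟩
    · exact ⟨rfl, rfl, Or.inr h⟩
  · rintro ⟨rfl, rfl, h⟩
    refine ⟨?_, ?_⟩
    · intro he
      rw [Vtx.core.injEq] at he
      obtain ⟨-, -, rfl⟩ := he
      rcases h with h | h <;> exact ne_nxt p h
    · rcases h with h | h
      · exact Or.inl ⟨rfl, rfl, h⟩
      · exact Or.inr ⟨rfl, rfl, h⟩

theorem adj_core_tip {k k' : Fin 3} {x x' : X} {p p' : Fin B × Bool} :
    (satGraph B φ).Adj (.core k x p) (.tip k' x' p') ↔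
      k = k' ∧ x = x' ∧ (p = p' ∨ p = nxt p') := by
  rw [satGraph, SimpleGraph.fromRel_adj]
  simp [satRel]

theorem adj_tip_core {k k' : Fin 3} {x x' : X} {p p' : Fin B × Bool} :
    (satGraph B φ).Adj (.tip k' x' p') (.core k x p) ↔
      k = k' ∧ x = x' ∧ (p = p' ∨ p = nxt p') := by
  rw [SimpleGraph.adj_comm, adj_core_tip]

theorem adj_tip_tip {k k' : Fin 3} {x x' : X} {p p' : Fin B × Bool} :
    (satGraph B φ).Adj (.tip k x p) (.tip k' x' p') ↔ k ≠ k' ∧ x = x' ∧ p = p' := by
  rw [satGraph, SimpleGraph.fromRel_adj]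
  simp only [satRel]
  constructor
  · rintro ⟨_, (h | ⟨h1, h2, h3⟩)⟩
    · exact h
    · exact ⟨Ne.symm h1, h2.symm, h3.symm⟩
  · rintro ⟨h1, rfl, rfl⟩
    refine ⟨?_, Or.inl ⟨h1, rfl, rfl⟩⟩
    intro he
    rw [Vtx.tip.injEq] at he
    exact h1 he.1

theorem adj_cls_cls {k k' : Fin 3} {c c' : Fin m} {s s' : Bool} :
    (satGraph B φ).Adj (.cls k c s) (.cls k' c' s') ↔ k = k' ∧ c = c' ∧ s ≠ s' := by
  rw [satGraph, SimpleGraph.fromRel_adj]
  simp only [satRel]
  constructor
  · rintro ⟨_, (h | ⟨h1, h2, h3⟩)⟩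
    · exact h
    · exact ⟨h1.symm, h2.symm, Ne.symm h3⟩
  · rintro ⟨rfl, rfl, h⟩
    refine ⟨?_, Or.inl ⟨rfl, rfl, h⟩⟩
    intro he
    rw [Vtx.cls.injEq] at he
    exact h he.2.2

theorem adj_cls_tip {k k' : Fin 3} {c : Fin m} {s : Bool} {x : X} {p : Fin B × Bool} :
    (satGraph B φ).Adj (.cls k c s) (.tip k' x p) ↔
      k = k' ∧ ∃ i, φ c i = (x, p.2) ∧ rank φ (c, i) = p.1.val := by
  rw [satGraph, SimpleGraph.fromRel_adj]
  simp [satRel]

theorem adj_tip_cls {k k' : Fin 3} {c : Fin m} {s : Bool} {x : X} {p : Fin B × Bool} :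
    (satGraph B φ).Adj (.tip k' x p) (.cls k c s) ↔
      k = k' ∧ ∃ i, φ c i = (x, p.2) ∧ rank φ (c, i) = p.1.val := by
  rw [SimpleGraph.adj_comm, adj_cls_tip]

theorem not_adj_core_cls {k k' : Fin 3} {c : Fin m} {s : Bool} {x : X} {p : Fin B × Bool} :
    ¬ (satGraph B φ).Adj (.core k' x p) (.cls k c s) := by
  rw [satGraph, SimpleGraph.fromRel_adj]
  simp [satRel]

theorem not_adj_cls_core {k k' : Fin 3} {c : Fin m} {s : Bool} {x : X} {p : Fin B × Bool} :
    ¬ (satGraph B φ).Adj (.cls k c s) (.core k' x p) := by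
  rw [SimpleGraph.adj_comm]
  exact not_adj_core_cls φ

end Adj

/-! ### A proper colouring with three colours -/

/-- The colour of a vertex. -/
def color : Vtx X m B → Fin 3
  | .core k _ p => k + 1 + (if p.2 then 1 else 0)
  | .tip k _ _ => k
  | .cls k _ s => k + 1 + (if s then 1 else 0)

theorem color_aux1 : ∀ (k : Fin 3) (b : Bool),
    k + 1 + (if b then 1 else 0) ≠ k + 1 + (if !b then (1 : Fin 3) else 0) := by decide

theorem color_aux2 : ∀ (k : Fin 3) (b : Bool), k + 1 + (if b then (1 : Fin 3) else 0) ≠ k := by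
  decide

theorem color_ne (φ : CNF3 X m) {v w : Vtx X m B} (h : (satGraph B φ).Adj v w) :
    color v ≠ color w := by
  have key : ∀ v w : Vtx X m B, satRel φ v w → color v ≠ color w := by
    rintro (⟨k, x, p⟩ | ⟨k, x, p⟩ | ⟨k, c, s⟩) (⟨k', x', p'⟩ | ⟨k', x', p'⟩ | ⟨k', c', s'⟩) h
    · obtain ⟨rfl, rfl, rfl⟩ := h
      simp only [color, nxt_snd]
      exact color_aux1 k p.2
    · obtain ⟨rfl, rfl, h⟩ := h
      exact color_aux2 k p.2
    · exact absurd h (by simp [satRel])
    · exact absurd h (by simp [satRel])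
    · exact h.1
    · exact absurd h (by simp [satRel])
    · exact absurd h (by simp [satRel])
    · obtain ⟨rfl, -⟩ := h
      exact color_aux2 k s
    · obtain ⟨rfl, rfl, h⟩ := h
      have : s' = !s := by cases s <;> cases s' <;> simp_all
      rw [this]
      exact color_aux1 k s
  rw [satGraph, SimpleGraph.fromRel_adj] at h
  rcases h.2 with h | h
  · exact key _ _ h
  · exact (key _ _ h).symm

theorem satGraph_colorable (φ : CNF3 X m) : (satGraph B φ).Colorable 3 := by
  have C : (satGraph B φ).Coloring (Fin 3) :=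
    SimpleGraph.Coloring.mk color fun {v w} h => color_ne φ h
  exact C.colorable

theorem satGraph_cliqueFree (φ : CNF3 X m) : (satGraph B φ).CliqueFree 4 :=
  (satGraph_colorable φ).cliqueFree (by norm_num)

/-! ### Ranks -/

theorem rank_lt_of_pos_lt (φ : CNF3 X m) {q q' : Fin m × Fin 3}
    (h : (φ q.1 q.2).1 = (φ q'.1 q'.2).1)
    (hlt : 3 * q.1.val + q.2.val < 3 * q'.1.val + q'.2.val) : rank φ q < rank φ q' := by
  unfold rank
  refine card_lt_card ?_
  rw [ssubset_iff_of_subset]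
  · refine ⟨q, ?_, ?_⟩
    · rw [mem_filter]; exact ⟨mem_univ _, hlt, h⟩
    · rw [mem_filter]; intro h'; exact lt_irrefl _ h'.2.1
  · intro r hr
    rw [mem_filter] at hr ⊢
    exact ⟨mem_univ _, hr.2.1.trans hlt, hr.2.2.trans h⟩

theorem rank_injective (φ : CNF3 X m) {q q' : Fin m × Fin 3}
    (h : (φ q.1 q.2).1 = (φ q'.1 q'.2).1) (hr : rank φ q = rank φ q') : q = q' := by
  rcases lt_trichotomy (3 * q.1.val + q.2.val) (3 * q'.1.val + q'.2.val) with h1 | h1 | h1
  · exact absurd hr (rank_lt_of_pos_lt φ h h1).ne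
  · have h2 := q.2.isLt
    have h3 := q'.2.isLt
    have e1 : q.1.val = q'.1.val := by omega
    have e2 : q.2.val = q'.2.val := by omega
    exact Prod.ext (Fin.ext e1) (Fin.ext e2)
  · exact absurd hr (rank_lt_of_pos_lt φ h.symm h1).ne'

theorem rank_lt (φ : CNF3 X m) (hB : ∀ x, #(occurrences φ x) ≤ B) (q : Fin m × Fin 3) :
    rank φ q < B := by
  refine lt_of_lt_of_le ?_ (hB (φ q.1 q.2).1)
  unfold rank occurrences
  refine card_lt_card ?_
  rw [ssubset_iff_of_subset]
  · refine ⟨q, ?_, ?_⟩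
    · rw [mem_filter]; exact ⟨mem_univ _, rfl⟩
    · rw [mem_filter]; intro h'; exact lt_irrefl _ h'.2.1
  · intro r hr
    rw [mem_filter] at hr ⊢
    exact ⟨mem_univ _, hr.2.2⟩

/-- The position of the tip attached to a literal slot. -/
def slotPos (φ : CNF3 X m) (hB : ∀ x, #(occurrences φ x) ≤ B) (q : Fin m × Fin 3) :
    Fin B × Bool :=
  (⟨rank φ q, rank_lt φ hB q⟩, (φ q.1 q.2).2)

theorem slot_unique (φ : CNF3 X m) {c c' : Fin m} {i i' : Fin 3} {x : X} {p : Fin B × Bool}
    (h1 : φ c i = (x, p.2)) (h2 : rank φ (c, i) = p.1.val)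
    (h1' : φ c' i' = (x, p.2)) (h2' : rank φ (c', i') = p.1.val) : c = c' ∧ i = i' := by
  have := rank_injective φ (q := (c, i)) (q' := (c', i')) (by simp [h1, h1']) (h2.trans h2'.symm)
  rw [Prod.mk.injEq] at this
  exact this

/-! ### Degrees -/

theorem ncard_le_of_subset_finset {α : Type*} [DecidableEq α] {s : Set α} {t : Finset α} {n : ℕ}
    (h : ∀ x ∈ s, x ∈ t) (ht : #t ≤ n) : s.ncard ≤ n := by
  refine le_trans ?_ ht
  rw [← Set.ncard_coe_finset]
  exact Set.ncard_le_ncard (fun x hx => h x hx) (Finset.finite_toSet t)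

theorem satGraph_degree_le (φ : CNF3 X m) (hB : ∀ x, #(occurrences φ x) ≤ B) (v : Vtx X m B) :
    ((satGraph B φ).neighborSet v).ncard ≤ 6 := by
  rcases v with ⟨k, x, p⟩ | ⟨k, x, p⟩ | ⟨k, c, s⟩
  · obtain ⟨q, hq⟩ := exists_prev p
    refine ncard_le_of_subset_finset (t := {.core k x (nxt p), .core k x q, .tip k x p,
      .tip k x q}) ?_ (le_trans card_le_four (by norm_num))
    rintro (⟨k', x', p'⟩ | ⟨k', x', p'⟩ | ⟨k', c', s'⟩) h <;>
      rw [SimpleGraph.mem_neighborSet] at h
    · rw [adj_core_core] at h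
      obtain ⟨rfl, rfl, h⟩ := h
      rcases h with rfl | h
      · simp
      · have : p' = q := nxt_injective (h.symm.trans hq.symm)
        subst this
        simp
    · rw [adj_core_tip] at h
      obtain ⟨rfl, rfl, h⟩ := h
      rcases h with rfl | h
      · simp
      · have : p' = q := nxt_injective (h.symm.trans hq.symm)
        subst this
        simp
    · exact absurd h (not_adj_core_cls φ)
  · -- a tip
    by_cases hex : ∃ c i, φ c i = (x, p.2) ∧ rank φ (c, i) = p.1.val
    · obtain ⟨c, i, h1, h2⟩ := hex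
      refine ncard_le_of_subset_finset (t := {.core k x p, .core k x (nxt p), .tip (k + 1) x p,
        .tip (k + 2) x p, .cls k c false, .cls k c true}) ?_ card_le_six
      rintro (⟨k', x', p'⟩ | ⟨k', x', p'⟩ | ⟨k', c', s'⟩) h <;>
        rw [SimpleGraph.mem_neighborSet] at h
      · rw [adj_tip_core] at h
        obtain ⟨rfl, rfl, h⟩ := h
        rcases h with rfl | rfl <;> simp
      · rw [adj_tip_tip] at h
        obtain ⟨hk, rfl, rfl⟩ := h
        have : ∀ k k' : Fin 3, k ≠ k' → k' = k + 1 ∨ k' = k + 2 := by decide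
        rcases this k k' hk with rfl | rfl <;> simp
      · rw [adj_tip_cls] at h
        obtain ⟨rfl, i', h1', h2'⟩ := h
        obtain ⟨rfl, -⟩ := slot_unique φ h1 h2 h1' h2'
        cases s' <;> simp
    · refine ncard_le_of_subset_finset (t := {.core k x p, .core k x (nxt p), .tip (k + 1) x p,
        .tip (k + 2) x p}) ?_ (le_trans card_le_four (by norm_num))
      rintro (⟨k', x', p'⟩ | ⟨k', x', p'⟩ | ⟨k', c', s'⟩) h <;>
        rw [SimpleGraph.mem_neighborSet] at h
      · rw [adj_tip_core] at h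
        obtain ⟨rfl, rfl, h⟩ := h
        rcases h with rfl | rfl <;> simp
      · rw [adj_tip_tip] at h
        obtain ⟨hk, rfl, rfl⟩ := h
        have : ∀ k k' : Fin 3, k ≠ k' → k' = k + 1 ∨ k' = k + 2 := by decide
        rcases this k k' hk with rfl | rfl <;> simp
      · rw [adj_tip_cls] at h
        obtain ⟨rfl, i', h1', h2'⟩ := h
        exact absurd ⟨c', i', h1', h2'⟩ hex
  · refine ncard_le_of_subset_finset (t := {.cls k c (!s), .tip k (φ c 0).1 (slotPos φ hB (c, 0)),
      .tip k (φ c 1).1 (slotPos φ hB (c, 1)), .tip k (φ c 2).1 (slotPos φ hB (c, 2))}) ?_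
      (le_trans card_le_four (by norm_num))
    rintro (⟨k', x', p'⟩ | ⟨k', x', p'⟩ | ⟨k', c', s'⟩) h <;>
      rw [SimpleGraph.mem_neighborSet] at h
    · exact absurd h (not_adj_cls_core φ)
    · rw [adj_cls_tip] at h
      obtain ⟨rfl, i, h1, h2⟩ := h
      have e : Vtx.tip k x' p' = (.tip k (φ c i).1 (slotPos φ hB (c, i)) : Vtx X m B) := by
        rw [Vtx.tip.injEq]
        refine ⟨rfl, by rw [h1], ?_⟩
        refine Prod.ext (Fin.ext ?_) ?_
        · simp [slotPos, h2]
        · simp [slotPos, h1]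
      rw [e]
      have : ∀ i : Fin 3, i = 0 ∨ i = 1 ∨ i = 2 := by decide
      rcases this i with rfl | rfl | rfl <;> simp
    · rw [adj_cls_cls] at h
      obtain ⟨rfl, rfl, h⟩ := h
      have : s' = !s := by cases s <;> cases s' <;> simp_all
      rw [this]
      simp

end Pool.Agent.Lib.MP_0b8c1e_lc
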