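import Pool.Agent.Lib.MP_0b8c1e_lc.Defs

set_option autoImplicit false

/-!
# The graph of a 3-CNF formula: definitions
-/

namespace Pool.Agent.Lib.MP_0b8c1e_lc

open Finset

/-- A 3-CNF formula with variables in `X` and `m` clauses: `φ c i = (x, b)` says that the `i`-th
literal of clause `c` is `x` (if `b = true`) or the negation of `x` (if `b = false`). -/
abbrev CNF3 (X : Type*) (m : ℕ) : Type _ := Fin m → Fin 3 → X × Bool

/-- The literal slots in which the variable `x` occurs. -/
def occurrences {X : Type*} [DecidableEq X] {m : ℕ} (φ : CNF3 X m) (x : X) :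
    Finset (Fin m × Fin 3) :=
  univ.filter fun q => (φ q.1 q.2).1 = x

/-- The number of clauses in which the assignment `a` makes all three literals false. -/
def unsat {X : Type*} {m : ℕ} (φ : CNF3 X m) (a : X → Bool) : ℕ :=
  #(univ.filter fun c : Fin m => ∀ i, a (φ c i).1 ≠ (φ c i).2)

/-- The number of occurrences, in reading order, of the variable of slot `q` before `q`. -/
def rank {X : Type*} [DecidableEq X] {m : ℕ} (φ : CNF3 X m) (q : Fin m × Fin 3) : ℕ :=
  #(univ.filter fun q' : Fin m × Fin 3 =>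
    3 * q'.1.val + q'.2.val < 3 * q.1.val + q.2.val ∧ (φ q'.1 q'.2).1 = (φ q.1 q.2).1)

/-- The vertices of the graph of a formula with `m` clauses: three copies (`k : Fin 3`) of a cycle
of `2 B` core vertices for every variable, of a tip for every edge of such a cycle, and of two
vertices for every clause. -/
inductive Vtx (X : Type*) (m B : ℕ) : Type _
  | core (k : Fin 3) (x : X) (p : Fin B × Bool) : Vtx X m B
  | tip (k : Fin 3) (x : X) (p : Fin B × Bool) : Vtx X m B
  | cls (k : Fin 3) (c : Fin m) (s : Bool) : Vtx X m B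
  deriving DecidableEq

/-- The cyclic order `(0, false), (0, true), (1, false), ..., (B - 1, true)` on positions. -/
def nxt {B : ℕ} [NeZero B] (p : Fin B × Bool) : Fin B × Bool :=
  if p.2 then (p.1 + 1, false) else (p.1, true)

/-- The edges of the graph of a formula (each listed in one direction). -/
def satRel {X : Type*} [DecidableEq X] {m B : ℕ} [NeZero B] (φ : CNF3 X m) :
    Vtx X m B → Vtx X m B → Prop
  | .core k x p, .core k' x' p' => k = k' ∧ x = x' ∧ p' = nxt p
  | .core k x p, .tip k' x' p' => k = k' ∧ x = x' ∧ (p = p' ∨ p = nxt p')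
  | .tip k x p, .tip k' x' p' => k ≠ k' ∧ x = x' ∧ p = p'
  | .cls k c s, .cls k' c' s' => k = k' ∧ c = c' ∧ s ≠ s'
  | .cls k c _, .tip k' x' p' => k = k' ∧ ∃ i, φ c i = (x', p'.2) ∧ rank φ (c, i) = p'.1.val
  | _, _ => False

/-- The graph of a formula. -/
def satGraph {X : Type*} [DecidableEq X] {m : ℕ} (B : ℕ) [NeZero B] (φ : CNF3 X m) :
    SimpleGraph (Vtx X m B) :=
  SimpleGraph.fromRel (satRel φ)

/-- The vertex type as a sum type. -/
def vtxEquiv (X : Type*) (m B : ℕ) :
    ((Fin 3 × X × (Fin B × Bool)) ⊕ (Fin 3 × X × (Fin B × Bool))) ⊕ (Fin 3 × Fin m × Bool) ≃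
      Vtx X m B where
  toFun
    | .inl (.inl (k, x, p)) => .core k x p
    | .inl (.inr (k, x, p)) => .tip k x p
    | .inr (k, c, s) => .cls k c s
  invFun
    | .core k x p => .inl (.inl (k, x, p))
    | .tip k x p => .inl (.inr (k, x, p))
    | .cls k c s => .inr (k, c, s)
  left_inv := by rintro ((⟨_, _, _⟩ | ⟨_, _, _⟩) | ⟨_, _, _⟩) <;> rfl
  right_inv := by rintro (⟨_, _, _⟩ | ⟨_, _, _⟩ | ⟨_, _, _⟩) <;> rfl

instance {X : Type*} [Fintype X] {m B : ℕ} : Fintype (Vtx X m B) :=
  Fintype.ofEquiv _ (vtxEquiv X m B)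

theorem card_vtx (X : Type*) [Fintype X] (m B : ℕ) :
    Fintype.card (Vtx X m B) = 12 * B * Fintype.card X + 6 * m := by
  rw [← Fintype.card_congr (vtxEquiv X m B)]
  simp only [Fintype.card_sum, Fintype.card_prod, Fintype.card_fin, Fintype.card_bool]
  ring

end Pool.Agent.Lib.MP_0b8c1e_lc
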